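import Mathlib

/-!
# Recurrence for actions of discrete groups (MP_290264_an): definitions
-/

namespace Helper96.Recurrence

open MeasureTheory

universe u v

/-- `R ⊆ G` is a set of topological recurrence, as in the problem: for every minimal action of `G`
by homeomorphisms on a compact metric space `X` and every non-empty open `U ⊆ X`, some `g ∈ R`
with `g ≠ e` satisfies `U ∩ T_g⁻¹ U ≠ ∅`. -/
def IsTopologicallyRecurrent (G : Type u) [Group G] (R : Set G) : Prop :=
  ∀ (X : Type v) [MetricSpace X] [CompactSpace X] [MulAction G X] [ContinuousConstSMul G X]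
    [MulAction.IsMinimal G X] (U : Set X), IsOpen U → U.Nonempty →
    ∃ g ∈ R, g ≠ 1 ∧ (U ∩ (fun x => g • x) ⁻¹' U).Nonempty

/-- The same notion with phase spaces ranging over all compact Hausdorff spaces. -/
def IsTopologicallyRecurrentHausdorff (G : Type u) [Group G] (R : Set G) : Prop :=
  ∀ (X : Type v) [TopologicalSpace X] [T2Space X] [CompactSpace X] [MulAction G X]
    [ContinuousConstSMul G X] [MulAction.IsMinimal G X] (U : Set X), IsOpen U → U.Nonempty →
    ∃ g ∈ R, g ≠ 1 ∧ (U ∩ (fun x => g • x) ⁻¹' U).Nonempty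

/-- `R ⊆ G` is a set of measurable recurrence, as in the problem: for every measure-preserving
action of `G` on a probability space and every measurable `A` with `μ A > 0`, some `g ∈ R` with
`g ≠ e` satisfies `μ (A ∩ T_g⁻¹ A) > 0`. -/
def IsMeasurablyRecurrent (G : Type u) [Group G] (R : Set G) : Prop :=
  ∀ (X : Type v) [MeasurableSpace X] (μ : Measure X) [IsProbabilityMeasure μ] [MulAction G X],
    (∀ g : G, MeasurePreserving (fun x : X => g • x) μ μ) →
    ∀ A : Set X, MeasurableSet A → 0 < μ A →
    ∃ g ∈ R, g ≠ 1 ∧ 0 < μ (A ∩ (fun x => g • x) ⁻¹' A)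

/-- The function `f : G → ℝ` is bounded, i.e. belongs to `ℓ^∞(G)`. -/
def IsBdd {G : Type u} (f : G → ℝ) : Prop := ∃ C : ℝ, ∀ g, |f g| ≤ C

/-- `m` is a left-invariant mean on `ℓ^∞(G)`: on bounded functions it is additive, homogeneous,
equal to `1` on the constant function `1`, non-negative on non-negative functions, and invariant
under the left translations `f ↦ (h ↦ f (g⁻¹ h))`.  (The values of `m` at unbounded functions play
no role.) -/
structure IsLeftInvariantMean {G : Type u} [Group G] (m : (G → ℝ) → ℝ) : Prop where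
  add : ∀ f f' : G → ℝ, IsBdd f → IsBdd f' → m (fun h => f h + f' h) = m f + m f'
  smul : ∀ (c : ℝ) (f : G → ℝ), IsBdd f → m (fun h => c * f h) = c * m f
  one : m (fun _ => 1) = 1
  nonneg : ∀ f : G → ℝ, IsBdd f → (∀ h, 0 ≤ f h) → 0 ≤ m f
  invariant : ∀ (g : G) (f : G → ℝ), IsBdd f → m (fun h => f (g⁻¹ * h)) = m f

/-- `G` is amenable: `ℓ^∞(G)` carries a left-invariant mean. -/
def IsAmenable (G : Type u) [Group G] : Prop :=
  ∃ m : (G → ℝ) → ℝ, IsLeftInvariantMean m

end Helper96.Recurrence
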