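import Mathlib
import Pool.Agent.Helper96.RecurrenceDefs

/-!
# A combinatorial criterion for failure of topological recurrence
-/

namespace Helper96.Recurrence

open MeasureTheory Set

universe u v

/-- The full shift `{0,1}^G`, as a type synonym. -/
def Shift (G : Type u) : Type u := G → Bool

namespace Shift

variable {G : Type u}

instance : TopologicalSpace (Shift G) := inferInstanceAs (TopologicalSpace (G → Bool))
instance : CompactSpace (Shift G) := inferInstanceAs (CompactSpace (G → Bool))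
instance : T2Space (Shift G) := inferInstanceAs (T2Space (G → Bool))

theorem continuous_eval (h : G) : Continuous (fun ξ : Shift G => ξ h) :=
  continuous_apply (A := fun _ : G => Bool) h

variable [Group G]

instance : MulAction G (Shift G) where
  smul g ξ := fun h => ξ (h * g)
  one_smul ξ := by
    funext h
    show ξ (h * 1) = ξ h
    rw [mul_one]
  mul_smul g g' ξ := by
    funext h
    show ξ (h * (g * g')) = ξ (h * g * g')
    rw [mul_assoc]

theorem smul_apply (g h : G) (ξ : Shift G) : (g • ξ) h = ξ (h * g) := rfl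

instance : ContinuousConstSMul G (Shift G) where
  continuous_const_smul g := by
    apply continuous_pi
    intro h
    exact continuous_eval (h * g)

end Shift

/-- Every non-empty closed invariant subset of a compact Hausdorff `G`-space contains a minimal
one. -/
theorem exists_minimal_closed_invariant {G : Type u} [Group G] {X : Type v} [TopologicalSpace X]
    [CompactSpace X] [T2Space X] [MulAction G X] (Z₀ : Set X) (hc : IsClosed Z₀)
    (hne : Z₀.Nonempty) (hinv : ∀ (g : G), ∀ x ∈ Z₀, g • x ∈ Z₀) :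
    ∃ Z ⊆ Z₀, IsClosed Z ∧ Z.Nonempty ∧ (∀ (g : G), ∀ x ∈ Z, g • x ∈ Z) ∧
      ∀ W ⊆ Z, IsClosed W → W.Nonempty → (∀ (g : G), ∀ x ∈ W, g • x ∈ W) → W = Z := by
  obtain ⟨Z, hZ₀, hZ⟩ := zorn_superset_nonempty
    {Z : Set X | IsClosed Z ∧ Z.Nonempty ∧ ∀ (g : G), ∀ x ∈ Z, g • x ∈ Z} (by
      intro c hc' hchain hcne
      refine ⟨⋂₀ c, ⟨isClosed_sInter fun t ht => (hc' ht).1, ?_, ?_⟩, fun s hs => sInter_subset_of_mem hs⟩
      · have : Nonempty c := hcne.to_subtype
        refine IsCompact.nonempty_sInter_of_directed_nonempty_isCompact_isClosed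
          (S := c) ?_ (fun t ht => (hc' ht).2.1) (fun t ht => (hc' ht).1.isCompact)
          (fun t ht => (hc' ht).1)
        intro s hs t ht
        rcases hchain.total hs ht with h | h
        · exact ⟨s, hs, Subset.rfl, h⟩
        · exact ⟨t, ht, h, Subset.rfl⟩
      · intro g x hx t ht
        exact (hc' ht).2.2 g x (hx t ht)) Z₀ ⟨hc, hne, hinv⟩
  refine ⟨Z, hZ₀, hZ.prop.1, hZ.prop.2.1, hZ.prop.2.2, ?_⟩
  intro W hW h1 h2 h3
  exact Subset.antisymm hW (hZ.le_of_le ⟨h1, h2, h3⟩ hW)

/-- The combinatorial criterion: if `F` is finite, every `g` has an `f ∈ F` with `f g ∈ S`, and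
`r s ∉ S` for `s ∈ S`, `r ∈ R`, then there is a minimal subsystem of the shift in which `R` has no
return times to the clopen set `{ξ | ξ(e) = 1}`. -/
theorem exists_subMulAction {G : Type u} [Group G] (R S : Set G) (F : Finset G)
    (hF : ∀ g : G, ∃ f ∈ F, f * g ∈ S) (hR : ∀ s ∈ S, ∀ r ∈ R, r * s ∉ S) :
    ∃ Z : SubMulAction G (Shift G), IsClosed (Z : Set (Shift G)) ∧
      (∀ W : Set (Shift G), W ⊆ Z → IsClosed W → W.Nonempty →
        (∀ (g : G), ∀ x ∈ W, g • x ∈ W) → W = Z) ∧
      (∃ ξ ∈ Z, ξ 1 = true) ∧ ∀ ξ ∈ Z, ∀ r ∈ R, ¬ (ξ 1 = true ∧ (r • ξ) 1 = true) := by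
  classical
  set ξS : Shift G := fun h => decide (h ∈ S) with hξS
  set Z₀ : Set (Shift G) := closure (MulAction.orbit G ξS) with hZ₀
  have hinv : ∀ (g : G), ∀ x ∈ Z₀, g • x ∈ Z₀ := by
    intro g x hx
    have h1 := smul_closure_orbit_subset g ξS
    exact h1 (Set.smul_mem_smul_set hx)
  have hne : Z₀.Nonempty := ⟨ξS, subset_closure (MulAction.mem_orbit_self ξS)⟩
  obtain ⟨Z, hZsub, hZc, hZne, hZinv, hZmin⟩ :=
    exists_minimal_closed_invariant Z₀ isClosed_closure hne hinv
  have P1 : ∀ ξ ∈ Z₀, ∃ f ∈ F, ξ f = true := by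
    have hclosed : IsClosed {ξ : Shift G | ∃ f ∈ F, ξ f = true} := by
      have : {ξ : Shift G | ∃ f ∈ F, ξ f = true} = ⋃ f ∈ F, {ξ : Shift G | ξ f = true} := by
        ext ξ; simp
      rw [this]
      refine Set.Finite.isClosed_biUnion (Finset.finite_toSet F) ?_
      intro f _
      exact isClosed_eq (Shift.continuous_eval f) continuous_const
    have hsub : MulAction.orbit G ξS ⊆ {ξ : Shift G | ∃ f ∈ F, ξ f = true} := by
      rintro ξ ⟨g, rfl⟩
      obtain ⟨f, hf, hfg⟩ := hF g
      refine ⟨f, hf, ?_⟩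
      show ξS (f * g) = true
      simp [hξS, hfg]
    exact fun ξ hξ => (closure_minimal hsub hclosed) hξ
  have P2 : ∀ ξ ∈ Z₀, ∀ r ∈ R, ¬ (ξ 1 = true ∧ (r • ξ) 1 = true) := by
    intro ξ hξ r hr
    have hclosed : IsClosed {ξ : Shift G | ¬ (ξ 1 = true ∧ (r • ξ) 1 = true)} := by
      have : {ξ : Shift G | ¬ (ξ 1 = true ∧ (r • ξ) 1 = true)} =
          {ξ : Shift G | ξ 1 = false} ∪ {ξ : Shift G | ξ (1 * r) = false} := by
        ext ξ
        simp only [Shift.smul_apply, mem_ofPred_eq, mem_union]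
        cases ξ 1 <;> cases ξ (1 * r) <;> simp
      rw [this]
      exact (isClosed_eq (Shift.continuous_eval 1) continuous_const).union
        (isClosed_eq (Shift.continuous_eval (1 * r)) continuous_const)
    have hsub : MulAction.orbit G ξS ⊆ {ξ : Shift G | ¬ (ξ 1 = true ∧ (r • ξ) 1 = true)} := by
      rintro ξ ⟨g, rfl⟩
      rintro ⟨h1, h2⟩
      have h1' : ξS (1 * g) = true := h1
      have h2' : ξS (1 * r * g) = true := h2
      simp only [hξS, decide_eq_true_eq, one_mul] at h1' h2'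
      exact hR g h1' r hr h2'
    exact (closure_minimal hsub hclosed) hξ
  refine ⟨⟨Z, fun g {x} hx => hZinv g x hx⟩, hZc, ?_, ?_, ?_⟩
  · intro W hW h1 h2 h3
    exact hZmin W hW h1 h2 h3
  · obtain ⟨ξ, hξ⟩ := hZne
    obtain ⟨f, hf, hfξ⟩ := P1 ξ (hZsub hξ)
    refine ⟨f • ξ, hZinv f ξ hξ, ?_⟩
    show ξ (1 * f) = true
    rw [one_mul]; exact hfξ
  · intro ξ hξ r hr
    exact P2 ξ (hZsub hξ) r hr

/-- A closed invariant subset of the shift which is minimal among such sets is a minimal system. -/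
theorem isMinimal_of_minimal {G : Type u} [Group G] (Z : SubMulAction G (Shift G))
    (hZc : IsClosed (Z : Set (Shift G)))
    (hZmin : ∀ W : Set (Shift G), W ⊆ Z → IsClosed W → W.Nonempty →
        (∀ (g : G), ∀ x ∈ W, g • x ∈ W) → W = Z) : MulAction.IsMinimal G Z := by
  refine ⟨fun x => ?_⟩
  have hW : closure (MulAction.orbit G (x : Shift G)) = Z := by
    apply hZmin
    · refine closure_minimal ?_ hZc
      rintro _ ⟨g, rfl⟩
      exact Z.smul_mem g x.2
    · exact isClosed_closure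
    · exact ⟨_, subset_closure (MulAction.mem_orbit_self _)⟩
    · intro g y hy
      exact smul_closure_orbit_subset g _ (Set.smul_mem_smul_set hy)
  intro y
  rw [closure_subtype]
  have hy : (y : Shift G) ∈ closure (MulAction.orbit G (x : Shift G)) := by
    rw [hW]; exact y.2
  refine closure_mono ?_ hy
  rintro _ ⟨g, rfl⟩
  exact ⟨g • x, MulAction.mem_orbit _ _, rfl⟩

/-- Failure of topological recurrence (compact Hausdorff phase spaces) from the combinatorial
criterion. -/
theorem not_topologicallyRecurrentHausdorff {G : Type u} [Group G] (R S : Set G) (F : Finset G)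
    (hF : ∀ g : G, ∃ f ∈ F, f * g ∈ S) (hR : ∀ s ∈ S, ∀ r ∈ R, r * s ∉ S) :
    ¬ IsTopologicallyRecurrentHausdorff.{u, u} G R := by
  intro hrec
  obtain ⟨Z, hZc, hZmin, ⟨ξ₀, hξ₀, hξ₀1⟩, hZR⟩ := exists_subMulAction R S F hF hR
  have : CompactSpace Z := isCompact_iff_compactSpace.mp hZc.isCompact
  have : ContinuousConstSMul G Z := ⟨fun g =>
    Continuous.subtype_mk (continuous_subtype_val.const_smul g) _⟩
  have : MulAction.IsMinimal G Z := isMinimal_of_minimal Z hZc hZmin
  obtain ⟨r, hr, -, ξ, h1, h2⟩ := hrec Z {ξ : Z | (ξ : Shift G) 1 = true}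
    ((isOpen_discrete {true}).preimage ((Shift.continuous_eval 1).comp continuous_subtype_val))
    ⟨⟨ξ₀, hξ₀⟩, hξ₀1⟩
  exact hZR ξ ξ.2 r hr ⟨h1, h2⟩

/-- Failure of topological recurrence (compact metric phase spaces) from the combinatorial
criterion, for a countable group. -/
theorem not_topologicallyRecurrent {G : Type u} [Group G] [Countable G] (R S : Set G)
    (F : Finset G)
    (hF : ∀ g : G, ∃ f ∈ F, f * g ∈ S) (hR : ∀ s ∈ S, ∀ r ∈ R, r * s ∉ S) :
    ¬ IsTopologicallyRecurrent.{u, u} G R := by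
  intro hrec
  obtain ⟨Z, hZc, hZmin, ⟨ξ₀, hξ₀, hξ₀1⟩, hZR⟩ := exists_subMulAction R S F hF hR
  have : CompactSpace Z := isCompact_iff_compactSpace.mp hZc.isCompact
  have : ContinuousConstSMul G Z := ⟨fun g =>
    Continuous.subtype_mk (continuous_subtype_val.const_smul g) _⟩
  have : MulAction.IsMinimal G Z := isMinimal_of_minimal Z hZc hZmin
  have h1 : TopologicalSpace.MetrizableSpace (G → Bool) := inferInstance
  have h2 : TopologicalSpace.MetrizableSpace (Shift G) := h1
  have h3 : TopologicalSpace.MetrizableSpace Z :=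
    (Topology.IsEmbedding.subtypeVal (p := fun x => x ∈ Z)).metrizableSpace
  let _ : MetricSpace Z := TopologicalSpace.metrizableSpaceMetric Z
  obtain ⟨r, hr, -, ξ, h1, h2⟩ := hrec Z {ξ : Z | (ξ : Shift G) 1 = true}
    ((isOpen_discrete {true}).preimage ((Shift.continuous_eval 1).comp continuous_subtype_val))
    ⟨⟨ξ₀, hξ₀⟩, hξ₀1⟩
  exact hZR ξ ξ.2 r hr ⟨h1, h2⟩

end Helper96.Recurrence
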