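import Mathlib
import Pool.Agent.Helper96.RecurrenceShift

/-!
# Groups containing a free group of rank two
-/

namespace Helper96.Recurrence

open MeasureTheory Set

universe u v

/-- If `φ : F → G` is an injective homomorphism, then `G`, with `F` acting by left multiplication
through `φ`, maps equivariantly to `F`. -/
theorem exists_equivariant {F : Type v} {G : Type u} [Group F] [Group G] (φ : F →* G)
    (hφ : Function.Injective φ) : ∃ ρ : G → F, ∀ (w : F) (g : G), ρ (φ w * g) = w * ρ g := by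
  let s : Setoid G := QuotientGroup.rightRel φ.range
  let t : G → G := fun g => (Quotient.mk s g).out
  have ht : ∀ g, ∃ w : F, φ w = g * (t g)⁻¹ := by
    intro g
    have h1 : s (t g) g := Quotient.mk_out (s := s) g
    have h2 : g * (t g)⁻¹ ∈ φ.range := QuotientGroup.rightRel_apply.mp h1
    exact h2
  choose ρ hρ using ht
  refine ⟨ρ, fun w g => ?_⟩
  apply hφ
  have h1 : t (φ w * g) = t g := by
    have : Quotient.mk s (φ w * g) = Quotient.mk s g := by
      apply Quotient.sound
      show s (φ w * g) g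
      apply QuotientGroup.rightRel_apply.mpr
      have : g * (φ w * g)⁻¹ = φ w⁻¹ := by
        rw [map_inv]; group
      rw [this]
      exact ⟨w⁻¹, rfl⟩
    show (Quotient.mk s (φ w * g)).out = (Quotient.mk s g).out
    rw [this]
  rw [hρ, h1, map_mul, hρ, mul_assoc]

/-- The positive powers of an element of infinite order form a set of measurable recurrence
(Poincaré). -/
theorem isMeasurablyRecurrent_powers {G : Type u} [Group G] (b : G)
    (hb : ∀ n : ℕ, 1 ≤ n → b ^ n ≠ 1) :
    IsMeasurablyRecurrent.{u, v} G {g | ∃ n : ℕ, 1 ≤ n ∧ g = b ^ n} := by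
  intro X _ μ _ _ hpres A hA hμA
  by_contra hcon
  push Not at hcon
  have hnull : ∀ n : ℕ, 1 ≤ n → μ (A ∩ (fun x => b ^ n • x) ⁻¹' A) = 0 := by
    intro n hn
    have := hcon (b ^ n) ⟨n, hn, rfl⟩ (hb n hn)
    exact le_antisymm this (by simp)
  set N : Set X := ⋃ n : ℕ, A ∩ (fun x => b ^ (n + 1) • x) ⁻¹' A with hN
  have hN0 : μ N = 0 := by
    rw [hN, measure_iUnion_null_iff]
    intro n
    exact hnull (n + 1) (by omega)
  have hNm : MeasurableSet N :=
    MeasurableSet.iUnion fun n => hA.inter ((hpres (b ^ (n + 1))).measurable hA)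
  have hA' : μ (A \ N) = μ A := measure_sdiff_null hN0
  have hf : MeasurePreserving (fun x : X => b • x) μ μ := hpres b
  obtain ⟨x, hx, m, hm, hxm⟩ := hf.exists_mem_iterate_mem (s := A \ N)
    (hA.diff hNm).nullMeasurableSet (by rw [hA']; exact hμA.ne')
  have hit : ∀ m : ℕ, (fun x : X => b • x)^[m] x = b ^ m • x := by
    intro m
    induction m with
    | zero => simp
    | succ k ih => rw [Function.iterate_succ_apply', ih, pow_succ', mul_smul]
  rw [hit] at hxm
  apply hx.2
  rw [hN]
  refine mem_iUnion.mpr ⟨m - 1, hx.1, ?_⟩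
  show b ^ (m - 1 + 1) • x ∈ A
  rw [Nat.sub_add_cancel (Nat.one_le_iff_ne_zero.mpr hm)]
  exact hxm.1

open FreeGroup in
/-- The ping-pong data in the free group of rank two. -/
theorem free_pingpong_cover (w : FreeGroup (Fin 2)) :
    of 0 * w ∈ startsWith ((0 : Fin 2), true) ∨
      of 0 * (of 1 * w) ∈ startsWith ((0 : Fin 2), true) := by
  by_cases h : w ∈ startsWith ((0 : Fin 2), false)
  · right
    apply startsWith_mk_mul
    intro h2
    have h3 : of 1 * w ∈ startsWith ((1 : Fin 2), true) := by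
      apply startsWith_mk_mul
      intro h4
      exact (Set.disjoint_left.mp (startsWith.disjoint_iff_ne.mpr (by simp))) h h4
    exact (Set.disjoint_left.mp (startsWith.disjoint_iff_ne.mpr (by simp))) h2 h3
  · left
    exact startsWith_mk_mul w h

open FreeGroup in
theorem free_pingpong_pow (w : FreeGroup (Fin 2)) (hw : w ∈ startsWith ((0 : Fin 2), true))
    (n : ℕ) : of 1 ^ (n + 1) * w ∈ startsWith ((1 : Fin 2), true) := by
  induction n with
  | zero =>
    rw [zero_add, pow_one]
    apply startsWith_mk_mul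
    intro h
    exact (Set.disjoint_left.mp (startsWith.disjoint_iff_ne.mpr (by simp))) hw h
  | succ k ih =>
    rw [pow_succ', mul_assoc]
    apply startsWith_mk_mul
    intro h
    exact (Set.disjoint_left.mp (startsWith.disjoint_iff_ne.mpr (by simp))) ih h

open FreeGroup in
theorem criterion_of_free {G : Type u} [Group G] (φ : FreeGroup (Fin 2) →* G)
    (hφ : Function.Injective φ) :
    ∃ (S : Set G) (F : Finset G), (∀ g : G, ∃ f ∈ F, f * g ∈ S) ∧
      ∀ s ∈ S, ∀ r ∈ {g | ∃ n : ℕ, 1 ≤ n ∧ g = φ (of 1) ^ n}, r * s ∉ S := by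
  classical
  obtain ⟨ρ, hρ⟩ := exists_equivariant φ hφ
  refine ⟨{g | ρ g ∈ startsWith ((0 : Fin 2), true)},
    {φ (of 0), φ (of 0 * of 1)}, ?_, ?_⟩
  · intro g
    rcases free_pingpong_cover (ρ g) with h | h
    · refine ⟨φ (of 0), by simp, ?_⟩
      show ρ (φ (of 0) * g) ∈ startsWith ((0 : Fin 2), true)
      rw [hρ]; exact h
    · refine ⟨φ (of 0 * of 1), by simp, ?_⟩
      show ρ (φ (of 0 * of 1) * g) ∈ startsWith ((0 : Fin 2), true)
      rw [hρ, mul_assoc]; exact h
  · rintro s hs r ⟨n, hn, rfl⟩ hrs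
    have h1 : ρ (φ (of 1) ^ n * s) = of 1 ^ n * ρ s := by
      rw [← map_pow, hρ]
    have hrs' : ρ (φ (of 1) ^ n * s) ∈ startsWith ((0 : Fin 2), true) := hrs
    rw [h1] at hrs'
    obtain ⟨m, rfl⟩ : ∃ m, n = m + 1 := ⟨n - 1, by omega⟩
    exact (Set.disjoint_left.mp (startsWith.disjoint_iff_ne.mpr (by simp))) hrs'
      (free_pingpong_pow (ρ s) hs m)

open FreeGroup in
theorem pow_ne_one_of_injective {G : Type u} [Group G] (φ : FreeGroup (Fin 2) →* G)
    (hφ : Function.Injective φ) (n : ℕ) (hn : 1 ≤ n) : φ (of 1) ^ n ≠ 1 := by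
  intro h
  have h1 : φ (of 1 ^ n) = φ 1 := by rw [map_pow, h, MonoidHom.map_one]
  have h2 := hφ h1
  obtain ⟨m, rfl⟩ : ∃ m, n = m + 1 := ⟨n - 1, by omega⟩
  have hmem := free_pingpong_pow (of 0) (by simp [startsWith]) m
  rw [h2, one_mul] at hmem
  simp [startsWith] at hmem

end Helper96.Recurrence
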