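import Mathlib

/-!
# Ideal achievement sets: definitions
-/

open Filter Topology Set

namespace Pool.Agent.Helper96.Achievement

/-- `I` is an ideal on `ℕ`: it contains all finite sets, is closed under subsets and finite
unions, and does not contain `ℕ`. -/
structure IsIdeal (I : Set (Set ℕ)) : Prop where
  finite_mem : ∀ s : Set ℕ, s.Finite → s ∈ I
  subset_mem : ∀ s t : Set ℕ, s ⊆ t → t ∈ I → s ∈ I
  union_mem : ∀ s t : Set ℕ, s ∈ I → t ∈ I → s ∪ t ∈ I
  univ_notMem : Set.univ ∉ I

/-- `SumsTo x A t`: the subseries `∑_{n ∈ A} x n` converges, with sum `t`. -/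
def SumsTo (x : ℕ → ℝ) (A : Set ℕ) (t : ℝ) : Prop :=
  Tendsto (fun N : ℕ => ∑ n ∈ Finset.range N, A.indicator x n) atTop (𝓝 t)

/-- The achievement set of `x`: all sums of convergent subseries. -/
def achievementSet (x : ℕ → ℝ) : Set ℝ := {t | ∃ A : Set ℕ, SumsTo x A t}

/-- The ideal achievement set of `x`: all sums of convergent subseries along members of `I`,
as a subset of the space `achievementSet x`. -/
def idealAchievementSet (I : Set (Set ℕ)) (x : ℕ → ℝ) : Set (achievementSet x) :=
  {t | ∃ A ∈ I, SumsTo x A t}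

end Pool.Agent.Helper96.Achievement
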