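import Pool.Agent.Helper96.AchievementDefs

/-!
# A category zero-one law for ideal achievement sets: proofs
-/

open Filter Topology Set

namespace Pool.Agent.Helper96.Achievement

/-! ### General topology -/

/-- A set with the Baire property which is nonmeager in every nonempty open set is comeager. -/
theorem mem_residual_of_everywhere {X : Type*} [TopologicalSpace X] {S : Set X}
    (hS : BaireMeasurableSet S)
    (h : ∀ O : Set X, IsOpen O → O.Nonempty → ¬ IsMeagre (S ∩ O)) : S ∈ residual X := by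
  obtain ⟨U, hU, hSU⟩ := hS.residualEq_isOpen
  have hdense : Dense U := by
    by_contra hnd
    have hne : ((closure U)ᶜ).Nonempty := by
      rw [nonempty_compl]
      intro hcl
      exact hnd (dense_iff_closure_eq.2 hcl)
    refine h _ isClosed_closure.isOpen_compl hne ?_
    have : (S ∩ (closure U)ᶜ)ᶜ ∈ residual X := by
      filter_upwards [hSU] with y hy
      intro hy'
      have h1 : y ∈ U := by
        have h0 : (S y) = (U y) := hy
        exact (eq_iff_iff.1 h0).1 hy'.1
      exact hy'.2 (subset_closure h1)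
    exact this
  have hUres : U ∈ residual X := residual_of_dense_open hU hdense
  filter_upwards [hSU, hUres] with y hy hyU
  have h0 : (S y) = (U y) := hy
  exact (eq_iff_iff.1 h0).2 hyU

/-- The union of all rational intervals in which `T` is meager. -/
def meagerPart (T : Set ℝ) : Set ℝ :=
  ⋃ p : ℚ × ℚ, ⋃ _ : IsMeagre (T ∩ Ioo (p.1 : ℝ) (p.2 : ℝ)), Ioo (p.1 : ℝ) (p.2 : ℝ)

theorem isMeagre_inter_meagerPart (T : Set ℝ) : IsMeagre (T ∩ meagerPart T) := by
  have : T ∩ meagerPart T ⊆
      ⋃ p : ℚ × ℚ, ⋃ _ : IsMeagre (T ∩ Ioo (p.1 : ℝ) (p.2 : ℝ)),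
        (T ∩ Ioo (p.1 : ℝ) (p.2 : ℝ)) := by
    rintro t ⟨ht, htm⟩
    simp only [meagerPart, mem_iUnion] at htm ⊢
    obtain ⟨p, hp, htp⟩ := htm
    exact ⟨p, hp, ht, htp⟩
  refine IsMeagre.mono this ?_
  refine isMeagre_iUnion fun p => ?_
  refine isMeagre_iUnion fun hp => hp

theorem not_isMeagre_of_notMem_meagerPart {T : Set ℝ} {s : ℝ} (hs : s ∉ meagerPart T)
    {ε : ℝ} (hε : 0 < ε) : ¬ IsMeagre (T ∩ Ioo (s - ε) (s + ε)) := by
  intro hm
  apply hs
  obtain ⟨p, hp1, hp2⟩ := exists_rat_btwn (show s - ε < s by linarith)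
  obtain ⟨q, hq1, hq2⟩ := exists_rat_btwn (show s < s + ε by linarith)
  simp only [meagerPart, mem_iUnion]
  refine ⟨(p, q), ?_, ?_⟩
  · refine IsMeagre.mono ?_ hm
    rintro z ⟨hz, hz1, hz2⟩
    exact ⟨hz, by simp only at hz1; linarith, by simp only at hz2; linarith⟩
  · exact ⟨hp2, hq1⟩

/-- Meager sets of reals are meager relative to a set of reals with dense interior. -/
theorem isMeagre_preimage_of_dense_interior {C : Set ℝ} (hC : C ⊆ closure (interior C))
    {T : Set ℝ} (hT : IsMeagre T) : IsMeagre ((↑) ⁻¹' T : Set C) := by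
  have key : Tendsto ((↑) : C → ℝ) (residual C) (residual ℝ) := by
    apply le_countableGenerate_iff_of_countableInterFilter.mpr
    rintro t ⟨ht, htd⟩
    refine residual_of_dense_open (ht.preimage continuous_subtype_val) ?_
    rw [dense_iff_inter_open]
    rintro U hU ⟨u, hu⟩
    obtain ⟨V, hV, rfl⟩ := isOpen_induced_iff.1 hU
    have h1 : (V ∩ interior C).Nonempty :=
      mem_closure_iff.1 (hC u.2) V hV hu
    obtain ⟨v, ⟨hvV, hvC⟩, hvt⟩ :=
      dense_iff_inter_open.1 htd (V ∩ interior C) (hV.inter isOpen_interior) h1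
    exact ⟨⟨v, interior_subset hvC⟩, hvV, hvt⟩
  exact key hT

/-- Translation of a relatively meager set. -/
theorem isMeagre_preimage_translate {C O : Set ℝ} (hO : IsOpen O) {τ : ℝ}
    (h : ∀ z ∈ C, z ∈ O → z + τ ∈ C) {T : Set ℝ} (hT : IsMeagre ((↑) ⁻¹' T : Set C)) :
    IsMeagre ((↑) ⁻¹' {w : ℝ | w - τ ∈ T ∩ O ∩ C} : Set C) := by
  let P : Set C := (↑) ⁻¹' O
  have hP : IsOpen P := hO.preimage continuous_subtype_val
  let j : P → C := fun z => ⟨((z : C) : ℝ) + τ, h _ z.1.2 z.2⟩
  have hj : IsInducing j := by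
    have h1 : IsInducing (fun z : P => ((j z : C) : ℝ)) := by
      have : (fun z : P => ((j z : C) : ℝ)) =
          (Homeomorph.addRight τ) ∘ (Subtype.val : C → ℝ) ∘ (Subtype.val : P → C) := by
        funext z
        simp [j]
      rw [this]
      exact (Homeomorph.addRight τ).isInducing.comp
        (IsInducing.subtypeVal.comp IsInducing.subtypeVal)
    have hcont : Continuous j := by
      refine Continuous.subtype_mk ?_ _
      exact (continuous_subtype_val.comp continuous_subtype_val).add continuous_const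
    exact IsInducing.of_comp hcont continuous_subtype_val h1
  have h2 : IsMeagre ((Subtype.val : P → C) ⁻¹' ((↑) ⁻¹' T : Set C)) :=
    hT.preimage_of_isOpenMap continuous_subtype_val hP.isOpenMap_subtype_val
  have h3 := hj.isMeagre_image h2
  refine IsMeagre.mono ?_ h3
  rintro w hw
  have hw' : (w : ℝ) - τ ∈ T ∩ O ∩ C := hw
  refine ⟨⟨⟨(w : ℝ) - τ, hw'.2⟩, hw'.1.2⟩, hw'.1.1, ?_⟩
  apply Subtype.ext
  simp [j]

/-! ### Finite modifications -/

/-- `J` is invariant under finite modifications of its members. -/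
def TailInvariant (J : Set (Set ℕ)) : Prop :=
  ∀ A ∈ J, ∀ A' : Set ℕ, (∃ n : ℕ, ∀ k, n ≤ k → (k ∈ A ↔ k ∈ A')) → A' ∈ J

theorem IsIdeal.tailInvariant {I : Set (Set ℕ)} (hI : IsIdeal I) : TailInvariant I := by
  rintro A hA A' ⟨n, hn⟩
  refine hI.subset_mem A' (A ∪ {k | k < n}) ?_
    (hI.union_mem _ _ hA (hI.finite_mem _ (Set.finite_lt_nat n)))
  intro k hk
  by_cases hkn : k < n
  · exact Or.inr hkn
  · exact Or.inl ((hn k (not_lt.1 hkn)).2 hk)

theorem sumsTo_modify {x : ℕ → ℝ} {A A' : Set ℕ} {t : ℝ} {n : ℕ}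
    (h : ∀ k, n ≤ k → (k ∈ A ↔ k ∈ A')) (hA : SumsTo x A t) :
    SumsTo x A' (t + (∑ k ∈ Finset.range n, A'.indicator x k
      - ∑ k ∈ Finset.range n, A.indicator x k)) := by
  have h1 : ∀ m : ℕ, ∑ k ∈ Finset.range (n + m), A'.indicator x k =
      ∑ k ∈ Finset.range (n + m), A.indicator x k + (∑ k ∈ Finset.range n, A'.indicator x k
      - ∑ k ∈ Finset.range n, A.indicator x k) := by
    intro m
    induction m with
    | zero => simp
    | succ m ih =>
      rw [← add_assoc, Finset.sum_range_succ, Finset.sum_range_succ, ih]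
      have : A'.indicator x (n + m) = A.indicator x (n + m) := by
        by_cases hk : (n + m) ∈ A
        · rw [indicator_of_mem hk, indicator_of_mem ((h _ (Nat.le_add_right n m)).1 hk)]
        · rw [indicator_of_notMem hk,
            indicator_of_notMem (fun h' => hk ((h _ (Nat.le_add_right n m)).2 h'))]
      rw [this]
      ring
  have h2 : Tendsto (fun N : ℕ => ∑ k ∈ Finset.range N, A.indicator x k +
      (∑ k ∈ Finset.range n, A'.indicator x k - ∑ k ∈ Finset.range n, A.indicator x k))
      atTop (𝓝 (t + (∑ k ∈ Finset.range n, A'.indicator x k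
      - ∑ k ∈ Finset.range n, A.indicator x k))) := hA.add_const _
  refine h2.congr' ?_
  filter_upwards [eventually_ge_atTop n] with N hN
  obtain ⟨m, rfl⟩ := Nat.exists_eq_add_of_le hN
  exact (h1 m).symm

/-- Sums of subseries along members of `J` avoiding `{0, …, n - 1}`. -/
def tailSums (J : Set (Set ℕ)) (x : ℕ → ℝ) (n : ℕ) : Set ℝ :=
  {t | ∃ A ∈ J, (∀ k < n, k ∉ A) ∧ SumsTo x A t}

/-- Main argument when relative meagerness can be compared with meagerness in `ℝ`. -/
theorem not_isMeagre_near {J : Set (Set ℕ)} (hJ : TailInvariant J) {x : ℕ → ℝ}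
    (hB : ¬ IsMeagre {t : ℝ | ∃ A ∈ J, SumsTo x A t}) {c : ℝ} (hc : c ∈ achievementSet x)
    {ε : ℝ} (hε : 0 < ε) :
    ¬ IsMeagre ({t : ℝ | ∃ A ∈ J, SumsTo x A t} ∩ Ioo (c - ε) (c + ε)) := by
  classical
  set B : Set ℝ := {t : ℝ | ∃ A ∈ J, SumsTo x A t} with hBdef
  -- the exceptional meager set
  let M : Set ℝ := ⋃ n : ℕ, ⋃ F : Finset ℕ,
    (fun s : ℝ => (∑ k ∈ F, x k) + s) '' (tailSums J x n ∩ meagerPart (tailSums J x n))
  have hM : IsMeagre M := by
    refine isMeagre_iUnion fun n => isMeagre_iUnion fun F => ?_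
    exact (Homeomorph.addLeft (∑ k ∈ F, x k)).isInducing.isMeagre_image
      (isMeagre_inter_meagerPart _)
  have hne : ∃ t ∈ B, t ∉ M := by
    by_contra hcon
    push Not at hcon
    exact hB (IsMeagre.mono hcon hM)
  obtain ⟨t, ⟨A, hAJ, hAt⟩, htM⟩ := hne
  -- the remainders
  have hrem : ∀ n : ℕ, t - ∑ k ∈ Finset.range n, A.indicator x k ∈ tailSums J x n ∧
      t - ∑ k ∈ Finset.range n, A.indicator x k ∉ meagerPart (tailSums J x n) := by
    intro n
    have h1 : t - ∑ k ∈ Finset.range n, A.indicator x k ∈ tailSums J x n := by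
      refine ⟨{k | n ≤ k ∧ k ∈ A}, ?_, ?_, ?_⟩
      · refine hJ A hAJ _ ⟨n, fun k hk => ?_⟩
        simp [hk]
      · intro k hk hk'
        exact absurd hk'.1 (not_le.2 hk)
      · have h2 : ∀ k, n ≤ k → (k ∈ A ↔ k ∈ {k | n ≤ k ∧ k ∈ A}) := by
          intro k hk
          simp [hk]
        have h3 := sumsTo_modify h2 hAt
        have h4 : ∑ k ∈ Finset.range n, ({k | n ≤ k ∧ k ∈ A} : Set ℕ).indicator x k = 0 := by
          refine Finset.sum_eq_zero fun k hk => ?_
          refine indicator_of_notMem ?_ _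
          intro hk'
          exact absurd hk'.1 (not_le.2 (Finset.mem_range.1 hk))
        rw [h4] at h3
        convert h3 using 1
        ring
    refine ⟨h1, fun hmem => htM ?_⟩
    refine mem_iUnion.2 ⟨n, mem_iUnion.2 ⟨{k ∈ Finset.range n | k ∈ A}, ?_⟩⟩
    refine ⟨_, ⟨h1, hmem⟩, ?_⟩
    have h5 : ∑ k ∈ Finset.range n with k ∈ A, x k = ∑ k ∈ Finset.range n, A.indicator x k := by
      rw [Finset.sum_filter]
      refine Finset.sum_congr rfl fun k _ => ?_
      by_cases hk : k ∈ A <;> simp [hk]
    simp only [h5]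
    ring
  obtain ⟨A', hA'⟩ := hc
  -- approximating points
  have hlim : Tendsto (fun n : ℕ => ∑ k ∈ Finset.range n, A'.indicator x k +
      (t - ∑ k ∈ Finset.range n, A.indicator x k)) atTop (𝓝 (c + (t - t))) :=
    Tendsto.add hA' (tendsto_const_nhds.sub hAt)
  rw [sub_self, add_zero] at hlim
  have hev := hlim.eventually (Ioo_mem_nhds (show c - ε / 2 < c by linarith)
    (show c < c + ε / 2 by linarith))
  obtain ⟨n, hn⟩ := hev.exists
  intro hm
  set s := t - ∑ k ∈ Finset.range n, A.indicator x k with hs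
  set σ := ∑ k ∈ Finset.range n, A'.indicator x k with hσ
  have h6 : ¬ IsMeagre (tailSums J x n ∩ Ioo (s - ε / 2) (s + ε / 2)) :=
    not_isMeagre_of_notMem_meagerPart (hrem n).2 (by linarith)
  apply h6
  have h7 : IsMeagre ((Homeomorph.addLeft σ) ⁻¹' (B ∩ Ioo (c - ε) (c + ε))) :=
    hm.preimage_of_isOpenMap (Homeomorph.addLeft σ).continuous (Homeomorph.addLeft σ).isOpenMap
  refine IsMeagre.mono ?_ h7
  rintro b ⟨⟨A'', hA''J, hA''n, hA''b⟩, hb1, hb2⟩
  refine ⟨?_, ?_⟩
  · refine ⟨{k | (k < n ∧ k ∈ A') ∨ k ∈ A''}, ?_, ?_⟩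
    · refine hJ A'' hA''J _ ⟨n, fun k hk => ?_⟩
      simp [not_lt.2 hk]
    · have h8 : ∀ k, n ≤ k → (k ∈ A'' ↔ k ∈ {k | (k < n ∧ k ∈ A') ∨ k ∈ A''}) := by
        intro k hk
        simp [not_lt.2 hk]
      have h9 := sumsTo_modify h8 hA''b
      have h10 : ∑ k ∈ Finset.range n, A''.indicator x k = 0 :=
        Finset.sum_eq_zero fun k hk =>
          indicator_of_notMem (hA''n k (Finset.mem_range.1 hk)) _
      have h11 : ∑ k ∈ Finset.range n,
          ({k | (k < n ∧ k ∈ A') ∨ k ∈ A''} : Set ℕ).indicator x k = σ := by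
        rw [hσ]
        refine Finset.sum_congr rfl fun k hk => ?_
        have hkn := Finset.mem_range.1 hk
        by_cases hkA : k ∈ A'
        · rw [indicator_of_mem hkA, indicator_of_mem]
          exact Or.inl ⟨hkn, hkA⟩
        · rw [indicator_of_notMem hkA, indicator_of_notMem]
          rintro (h | h)
          · exact hkA h.2
          · exact hA''n k hkn h
      rw [h10, h11] at h9
      convert h9 using 1
      change σ + b = _
      ring
  · change σ + b ∈ Ioo (c - ε) (c + ε)
    have hn1 : c - ε / 2 < σ + s := hn.1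
    have hn2 : σ + s < c + ε / 2 := hn.2
    constructor <;> linarith

/-! ### Absolutely convergent series -/

theorem sumsTo_iff {x : ℕ → ℝ} (hx : Summable x) {A : Set ℕ} {t : ℝ} :
    SumsTo x A t ↔ t = ∑' k, A.indicator x k := by
  have h1 : Tendsto (fun N : ℕ => ∑ n ∈ Finset.range N, A.indicator x n) atTop
      (𝓝 (∑' k, A.indicator x k)) := (hx.indicator A).hasSum.tendsto_sum_nat
  constructor
  · intro h
    exact tendsto_nhds_unique h h1
  · rintro rfl
    exact h1

/-- The sums over sets avoiding `{0, …, n - 1}` form a compact set. -/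
theorem isCompact_tail {x : ℕ → ℝ} (hx : Summable x) (m : ℝ) (n : ℕ) :
    IsCompact {t : ℝ | ∃ A : Set ℕ, (∀ k < n, k ∉ A) ∧ t = m + ∑' k, A.indicator x k} := by
  classical
  let φ : (ℕ → Bool) → ℝ := fun a => m + ∑' k, (if a k = true then x k else 0)
  have hφ : Continuous φ := by
    refine continuous_const.add ?_
    refine continuous_tsum (u := fun k => |x k|) ?_ hx.abs ?_
    · intro k
      have : (fun a : ℕ → Bool => if a k = true then x k else 0) =
          (fun b : Bool => if b = true then x k else 0) ∘ (fun a : ℕ → Bool => a k) := rfl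
      rw [this]
      exact (continuous_of_discreteTopology).comp (continuous_apply k)
    · intro k a
      by_cases h : a k = true <;> simp [h]
  have hcl : IsClosed {a : ℕ → Bool | ∀ k < n, a k = false} := by
    have : {a : ℕ → Bool | ∀ k < n, a k = false} =
        ⋂ k : ℕ, ⋂ _ : k < n, {a : ℕ → Bool | a k = false} := by
      ext a
      simp
    rw [this]
    refine isClosed_iInter fun k => isClosed_iInter fun _ => ?_
    exact isClosed_eq (continuous_apply k) continuous_const
  have : {t : ℝ | ∃ A : Set ℕ, (∀ k < n, k ∉ A) ∧ t = m + ∑' k, A.indicator x k} =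
      φ '' {a : ℕ → Bool | ∀ k < n, a k = false} := by
    ext t
    constructor
    · rintro ⟨A, hA, rfl⟩
      refine ⟨fun k => decide (k ∈ A), ?_, ?_⟩
      · intro k hk
        simp [hA k hk]
      · simp only [φ]
        congr 2
        funext k
        by_cases hk : k ∈ A <;> simp [hk]
    · rintro ⟨a, ha, rfl⟩
      refine ⟨{k | a k = true}, ?_, ?_⟩
      · intro k hk
        simp [ha k hk]
      · simp only [φ]
        congr 2
        funext k
        by_cases hk : a k = true <;> simp [hk]
  rw [this]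
  exact hcl.isCompact.image hφ

/-- If the achievement set of an absolutely summable sequence has nonempty interior, then it is
contained in the closure of its interior. -/
theorem subset_closure_interior {x : ℕ → ℝ} (hx : Summable x)
    (hint : (interior (achievementSet x)).Nonempty) :
    achievementSet x ⊆ closure (interior (achievementSet x)) := by
  classical
  let K : ℕ → Set ℝ := fun n =>
    {t : ℝ | ∃ A : Set ℕ, (∀ k < n, k ∉ A) ∧ t = 0 + ∑' k, A.indicator x k}
  have hK : ∀ n, IsClosed (K n) := fun n => (isCompact_tail hx 0 n).isClosed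
  have hsplit : ∀ (n : ℕ) (A : Set ℕ), ∑' k, A.indicator x k =
      ∑ k ∈ Finset.range n, A.indicator x k +
        ∑' k, ({k | n ≤ k ∧ k ∈ A} : Set ℕ).indicator x k := by
    intro n A
    have h1 : SumsTo x A (∑' k, A.indicator x k) := (sumsTo_iff hx).2 rfl
    have h2 : ∀ k, n ≤ k → (k ∈ A ↔ k ∈ {k | n ≤ k ∧ k ∈ A}) := by
      intro k hk
      simp [hk]
    have h3 := (sumsTo_iff hx).1 (sumsTo_modify h2 h1)
    have h4 : ∑ k ∈ Finset.range n, ({k | n ≤ k ∧ k ∈ A} : Set ℕ).indicator x k = 0 := by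
      refine Finset.sum_eq_zero fun k hk => ?_
      refine indicator_of_notMem ?_ _
      intro hk'
      exact absurd hk'.1 (not_le.2 (Finset.mem_range.1 hk))
    rw [h4] at h3
    linarith
  -- each tail set has nonempty interior
  have hKint : ∀ n, (interior (K n)).Nonempty := by
    intro n
    by_contra hne
    rw [not_nonempty_iff_eq_empty] at hne
    have hKm : IsMeagre (K n) := by
      apply IsNowhereDense.isMeagre
      rw [IsNowhereDense, (hK n).closure_eq, hne]
    have hCm : IsMeagre (achievementSet x) := by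
      have hsub : achievementSet x ⊆
          ⋃ F : Finset ℕ, (fun s : ℝ => (∑ k ∈ F, x k) + s) '' (K n) := by
        rintro t ⟨A, hA⟩
        have ht := (sumsTo_iff hx).1 hA
        refine mem_iUnion.2 ⟨{k ∈ Finset.range n | k ∈ A}, ?_⟩
        refine ⟨∑' k, ({k | n ≤ k ∧ k ∈ A} : Set ℕ).indicator x k, ?_, ?_⟩
        · refine ⟨_, ?_, (zero_add _).symm⟩
          intro k hk hk'
          exact absurd hk'.1 (not_le.2 hk)
        · have h5 : ∑ k ∈ Finset.range n with k ∈ A, x k =
              ∑ k ∈ Finset.range n, A.indicator x k := by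
            rw [Finset.sum_filter]
            refine Finset.sum_congr rfl fun k _ => ?_
            by_cases hk : k ∈ A <;> simp [hk]
          simp only [h5]
          rw [ht, hsplit n A]
      refine IsMeagre.mono hsub (isMeagre_iUnion fun F => ?_)
      exact (Homeomorph.addLeft (∑ k ∈ F, x k)).isInducing.isMeagre_image hKm
    exact not_isMeagre_of_isOpen isOpen_interior hint (IsMeagre.mono interior_subset hCm)
  rintro c ⟨A, hA⟩
  have hc := (sumsTo_iff hx).1 hA
  rw [Metric.mem_closure_iff]
  intro ε hε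
  have hR : Tendsto (fun n : ℕ => ∑' k, |x (k + n)|) atTop (𝓝 0) :=
    tendsto_sum_nat_add (fun k => |x k|)
  obtain ⟨n, hn⟩ := (hR.eventually (gt_mem_nhds (show (0 : ℝ) < ε / 2 by linarith))).exists
  -- bound on the tail set
  have hbound : ∀ A' : Set ℕ, (∀ k < n, k ∉ A') → |∑' k, A'.indicator x k| < ε / 2 := by
    intro A' hA'
    have h1 : ∑' k, A'.indicator x k = ∑' k, A'.indicator x (k + n) := by
      rw [← (hx.indicator A').sum_add_tsum_nat_add n]
      rw [Finset.sum_eq_zero fun k hk => indicator_of_notMem (hA' k (Finset.mem_range.1 hk)) _,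
        zero_add]
    rw [h1]
    have hs : Summable (fun k => |x (k + n)|) := (summable_nat_add_iff n).2 hx.abs
    have hs2 : Summable (fun k => |A'.indicator x (k + n)|) := by
      refine Summable.of_nonneg_of_le (fun k => abs_nonneg _) (fun k => ?_) hs
      by_cases hk : k + n ∈ A' <;> simp [hk]
    calc |∑' k, A'.indicator x (k + n)| ≤ ∑' k, |A'.indicator x (k + n)| := by
          have := norm_tsum_le_tsum_norm (f := fun k => A'.indicator x (k + n))
            (by simpa [Real.norm_eq_abs] using hs2)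
          simpa [Real.norm_eq_abs] using this
      _ ≤ ∑' k, |x (k + n)| := by
          refine Summable.tsum_le_tsum (fun k => ?_) hs2 hs
          by_cases hk : k + n ∈ A' <;> simp [hk]
      _ < ε / 2 := hn
  obtain ⟨z, hz⟩ := hKint n
  set σ := ∑ k ∈ Finset.range n, A.indicator x k with hσ
  have hsubset : (fun s => σ + s) '' (K n) ⊆ achievementSet x := by
    rintro _ ⟨s, ⟨A', hA', hs⟩, rfl⟩
    refine ⟨{k | (k < n ∧ k ∈ A) ∨ k ∈ A'}, ?_⟩
    rw [sumsTo_iff hx]
    rw [hsplit n {k | (k < n ∧ k ∈ A) ∨ k ∈ A'}]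
    have h1 : ∑ k ∈ Finset.range n,
          ({k | (k < n ∧ k ∈ A) ∨ k ∈ A'} : Set ℕ).indicator x k = σ := by
      rw [hσ]
      refine Finset.sum_congr rfl fun k hk => ?_
      have hkn := Finset.mem_range.1 hk
      by_cases hkA : k ∈ A
      · rw [indicator_of_mem hkA, indicator_of_mem]
        exact Or.inl ⟨hkn, hkA⟩
      · rw [indicator_of_notMem hkA, indicator_of_notMem]
        rintro (h | h)
        · exact hkA h.2
        · exact hA' k hkn h
    have h2 : ({k | n ≤ k ∧ k ∈ ({k | (k < n ∧ k ∈ A) ∨ k ∈ A'} : Set ℕ)} : Set ℕ) = A' := by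
      ext k
      constructor
      · rintro ⟨hk1, hk2 | hk2⟩
        · exact absurd hk2.1 (not_lt.2 hk1)
        · exact hk2
      · intro hk
        refine ⟨?_, Or.inr hk⟩
        by_contra hlt
        exact hA' k (not_le.1 hlt) hk
    rw [h1, h2, hs]
    simp
  refine ⟨σ + z, ?_, ?_⟩
  · have h3 : IsOpen ((Homeomorph.addLeft σ) '' interior (K n)) :=
      (Homeomorph.addLeft σ).isOpenMap _ isOpen_interior
    refine interior_maximal ?_ h3 ⟨z, hz, rfl⟩
    exact (image_mono interior_subset).trans hsubset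
  · obtain ⟨A', hA', hzA'⟩ := interior_subset hz
    have h4 := hbound A' hA'
    have h5 := hbound {k | n ≤ k ∧ k ∈ A} (fun k hk hk' => absurd hk'.1 (not_le.2 hk))
    rw [zero_add] at hzA'
    rw [← hzA'] at h4
    rw [hc, hsplit n A, Real.dist_eq]
    have h6 : σ + (∑' k, ({k | n ≤ k ∧ k ∈ A} : Set ℕ).indicator x k) - (σ + z) =
      (∑' k, ({k | n ≤ k ∧ k ∈ A} : Set ℕ).indicator x k) - z := by ring
    rw [h6]
    calc _ ≤ |∑' k, ({k | n ≤ k ∧ k ∈ A} : Set ℕ).indicator x k| + |z| := abs_sub _ _
      _ < ε := by linarith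

/-! ### Conditionally convergent series -/

/-- The greedy partial sums aiming at `t`. -/
noncomputable def greedy (x : ℕ → ℝ) (t : ℝ) : ℕ → ℝ
  | 0 => 0
  | n + 1 => if greedy x t n < t then greedy x t n + max (x n) 0 else greedy x t n + min (x n) 0

theorem achievementSet_eq_univ {x : ℕ → ℝ} (hconv : ∃ L, SumsTo x univ L)
    (hx : ¬ Summable x) : achievementSet x = univ := by
  obtain ⟨L, hL⟩ := hconv
  have hL' : Tendsto (fun N : ℕ => ∑ n ∈ Finset.range N, x n) atTop (𝓝 L) := by
    simpa [SumsTo] using hL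
  -- terms tend to zero
  have hx0 : Tendsto x atTop (𝓝 0) := by
    have h1 := (hL'.comp (tendsto_add_atTop_nat 1)).sub hL'
    rw [sub_self] at h1
    refine h1.congr fun n => ?_
    simp [Finset.sum_range_succ]
  -- positive and negative parts are not summable
  have hpm : ∀ n, x n = max (x n) 0 + min (x n) 0 := by
    intro n
    rcases le_total (x n) 0 with h | h
    · rw [max_eq_right h, min_eq_left h]; ring
    · rw [max_eq_left h, min_eq_right h]; ring
  have hsummable_of : ∀ u v : ℕ → ℝ, (∀ n, 0 ≤ u n) → (∀ n, 0 ≤ v n) →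
      (∃ l, Tendsto (fun N : ℕ => ∑ n ∈ Finset.range N, (u n - v n)) atTop (𝓝 l)) →
      Summable u → Summable v := by
    rintro u v hu hv ⟨l, hl⟩ hus
    have h1 : Tendsto (fun N : ℕ => ∑ n ∈ Finset.range N, v n) atTop (𝓝 (tsum u - l)) := by
      have := hus.hasSum.tendsto_sum_nat.sub hl
      refine this.congr fun N => ?_
      rw [← Finset.sum_sub_distrib]
      refine Finset.sum_congr rfl fun n _ => by ring
    by_contra hvs
    exact not_tendsto_nhds_of_tendsto_atTop
      ((not_summable_iff_tendsto_nat_atTop_of_nonneg hv).1 hvs) _ h1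
  have hp : ¬ Summable (fun n => max (x n) 0) := by
    intro hp
    have hq : Summable (fun n => -min (x n) 0) := by
      refine hsummable_of _ _ (fun n => le_max_right _ _) (fun n => ?_) ⟨L, ?_⟩ hp
      · simp
      · refine hL'.congr fun N => Finset.sum_congr rfl fun n _ => ?_
        have := hpm n
        linarith
    apply hx
    have := hp.sub hq
    refine this.congr fun n => ?_
    have := hpm n
    linarith
  have hq : ¬ Summable (fun n => -min (x n) 0) := by
    intro hq
    have hp' : Summable (fun n => max (x n) 0) := by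
      refine hsummable_of _ _ (fun n => ?_) (fun n => le_max_right _ _) ⟨-L, ?_⟩ hq
      · simp
      · have := hL'.neg
        refine this.congr fun N => ?_
        rw [← Finset.sum_neg_distrib]
        refine Finset.sum_congr rfl fun n _ => ?_
        have := hpm n
        linarith
    exact hp hp'
  have hptop := (not_summable_iff_tendsto_nat_atTop_of_nonneg
    (fun n => le_max_right (x n) 0)).1 hp
  have hqtop := (not_summable_iff_tendsto_nat_atTop_of_nonneg
    (fun n => show 0 ≤ -min (x n) 0 by simp)).1 hq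
  ext t
  simp only [mem_univ, iff_true]
  let S : ℕ → ℝ := greedy x t
  have hS : ∀ n, S (n + 1) = if S n < t then S n + max (x n) 0 else S n + min (x n) 0 :=
    fun n => rfl
  let A : Set ℕ := {n | (S n < t ∧ 0 ≤ x n) ∨ (¬ S n < t ∧ x n ≤ 0)}
  have hsum : ∀ N, ∑ n ∈ Finset.range N, A.indicator x n = S N := by
    intro N
    induction N with
    | zero => rfl
    | succ N ih =>
      rw [Finset.sum_range_succ, ih, hS]
      by_cases h : S N < t
      · rw [if_pos h]
        by_cases h0 : 0 ≤ x N
        · rw [indicator_of_mem (show N ∈ A from Or.inl ⟨h, h0⟩), max_eq_left h0]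
        · rw [indicator_of_notMem, max_eq_right (le_of_lt (not_le.1 h0))]
          rintro (h' | h')
          · exact h0 h'.2
          · exact h'.1 h
      · rw [if_neg h]
        by_cases h0 : x N ≤ 0
        · rw [indicator_of_mem (show N ∈ A from Or.inr ⟨h, h0⟩), min_eq_left h0]
        · rw [indicator_of_notMem, min_eq_right (le_of_lt (not_le.1 h0))]
          rintro (h' | h')
          · exact h h'.1
          · exact h0 h'.2
  refine ⟨A, ?_⟩
  have hlim : Tendsto S atTop (𝓝 t) := by
    rw [Metric.tendsto_atTop]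
    intro ε hε
    obtain ⟨N₀, hN₀⟩ := (Metric.tendsto_atTop.1 hx0) ε hε
    have hsmall : ∀ n ≥ N₀, |x n| < ε := by
      intro n hn
      simpa [Real.dist_eq] using hN₀ n hn
    -- invariance
    have hinv : ∀ n ≥ N₀, |S n - t| < ε → |S (n + 1) - t| < ε := by
      intro n hn h
      have hxn := abs_lt.1 (hsmall n hn)
      rw [abs_lt] at h ⊢
      rw [hS]
      split_ifs with hlt
      · have h1 : 0 ≤ max (x n) 0 := le_max_right _ _
        have h2 : max (x n) 0 < ε := max_lt hxn.2 hε
        constructor <;> linarith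
      · have h1 : min (x n) 0 ≤ 0 := min_le_right _ _
        have h2 : -ε < min (x n) 0 := lt_min hxn.1 (by linarith)
        constructor <;> linarith
    -- existence
    have hex : ∃ n ≥ N₀, |S n - t| < ε := by
      by_contra hcon
      push Not at hcon
      by_cases h0 : S N₀ < t
      · have hall : ∀ m, S (N₀ + m) ≤ t - ε := by
          intro m
          induction m with
          | zero =>
            have h1 := hcon N₀ le_rfl
            rw [abs_of_neg (by linarith)] at h1
            simp only [add_zero]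
            linarith
          | succ m ih =>
            have h1 := hcon (N₀ + m + 1) (by omega)
            have h2 : S (N₀ + m + 1) = S (N₀ + m) + max (x (N₀ + m)) 0 := by
              rw [hS, if_pos (by linarith)]
            have h3 : max (x (N₀ + m)) 0 < ε :=
              max_lt (abs_lt.1 (hsmall (N₀ + m) (by omega))).2 hε
            rw [← add_assoc]
            rw [abs_of_neg (by linarith)] at h1
            linarith
        have hval : ∀ m, S (N₀ + m) = S N₀ +
            (∑ n ∈ Finset.range (N₀ + m), max (x n) 0 - ∑ n ∈ Finset.range N₀, max (x n) 0) := by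
          intro m
          induction m with
          | zero => simp
          | succ m ih =>
            rw [← add_assoc, hS, if_pos (by linarith [hall m]), ih, Finset.sum_range_succ]
            ring
        have h4 := (hptop.eventually_gt_atTop
          (t - S N₀ + ∑ n ∈ Finset.range N₀, max (x n) 0)).and (eventually_ge_atTop N₀)
        obtain ⟨n, hn1, hn2⟩ := h4.exists
        obtain ⟨m, rfl⟩ := Nat.exists_eq_add_of_le hn2
        have h5 := hval m
        have h6 := hall m
        linarith
      · have hall : ∀ m, t + ε ≤ S (N₀ + m) := by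
          intro m
          induction m with
          | zero =>
            have h1 := hcon N₀ le_rfl
            rw [abs_of_nonneg (by linarith)] at h1
            simp only [add_zero]
            linarith
          | succ m ih =>
            have h1 := hcon (N₀ + m + 1) (by omega)
            have h2 : S (N₀ + m + 1) = S (N₀ + m) + min (x (N₀ + m)) 0 := by
              rw [hS, if_neg (by linarith)]
            have h3 : -ε < min (x (N₀ + m)) 0 :=
              lt_min (abs_lt.1 (hsmall (N₀ + m) (by omega))).1 (by linarith)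
            rw [← add_assoc]
            rw [abs_of_pos (by linarith)] at h1
            linarith
        have hval : ∀ m, S (N₀ + m) = S N₀ -
            (∑ n ∈ Finset.range (N₀ + m), -min (x n) 0 -
              ∑ n ∈ Finset.range N₀, -min (x n) 0) := by
          intro m
          induction m with
          | zero => simp
          | succ m ih =>
            rw [← add_assoc, hS, if_neg (by linarith [hall m]), ih, Finset.sum_range_succ]
            ring
        have h4 := (hqtop.eventually_gt_atTop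
          (S N₀ - t + ∑ n ∈ Finset.range N₀, -min (x n) 0)).and (eventually_ge_atTop N₀)
        obtain ⟨n, hn1, hn2⟩ := h4.exists
        obtain ⟨m, rfl⟩ := Nat.exists_eq_add_of_le hn2
        have h5 := hval m
        have h6 := hall m
        linarith
    obtain ⟨N, hN, hNε⟩ := hex
    refine ⟨N, fun n hn => ?_⟩
    rw [Real.dist_eq]
    obtain ⟨m, rfl⟩ := Nat.exists_eq_add_of_le hn
    induction m with
    | zero => simpa using hNε
    | succ m ih => exact hinv (N + m) (by omega) (ih (by omega))
  refine hlim.congr fun N => (hsum N).symm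

/-! ### Nowhere dense achievement sets -/

section NowhereDense

variable {y : ℕ → ℝ}

theorem psi_union (hy : Summable y) {E F : Set ℕ} (h : Disjoint E F) :
    ∑' k, (E ∪ F).indicator y k = ∑' k, E.indicator y k + ∑' k, F.indicator y k := by
  rw [← (hy.indicator E).tsum_add (hy.indicator F)]
  congr 1
  funext k
  rw [indicator_union_of_disjoint h]

theorem psi_nonneg (hy0 : ∀ k, 0 ≤ y k) (E : Set ℕ) : 0 ≤ ∑' k, E.indicator y k :=
  tsum_nonneg fun k => indicator_nonneg (fun k _ => hy0 k) k

theorem psi_le_of_mem (hy0 : ∀ k, 0 ≤ y k) (hy : Summable y) {E : Set ℕ} {k : ℕ} (hk : k ∈ E) :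
    y k ≤ ∑' k, E.indicator y k := by
  have h := (hy.indicator E).le_tsum k (fun j _ => indicator_nonneg (fun k _ => hy0 k) j)
  rwa [indicator_of_mem hk] at h

theorem psi_finset (F : Finset ℕ) : ∑' k, (F : Set ℕ).indicator y k = ∑ k ∈ F, y k := by
  rw [tsum_eq_sum (s := F)]
  · refine Finset.sum_congr rfl fun k hk => ?_
    rw [indicator_of_mem (Finset.mem_coe.2 hk)]
  · intro k hk
    rw [indicator_of_notMem (fun h => hk (Finset.mem_coe.1 h))]

/-- Local structure of the set of sums near a point `m + ψ(E)` which has a gap of length `γ` on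
its left: nearby sums use the large terms in the same way. -/
theorem exists_window (hy0 : ∀ k, 0 ≤ y k) (hy : Summable y) (m c : ℝ) {γ : ℝ} (hγ : 0 < γ)
    (hgap : ∀ E : Set ℕ, m + ∑' k, E.indicator y k < c → m + ∑' k, E.indicator y k ≤ c - γ) :
    ∃ η : ℝ, 0 < η ∧ η ≤ γ ∧ ∀ E : Set ℕ, c - γ < m + ∑' k, E.indicator y k →
      m + ∑' k, E.indicator y k < c + η →
        ∑' k, (E ∩ {k | γ ≤ y k}).indicator y k = c - m := by
  classical
  have hGfin : {k | γ ≤ y k}.Finite := by
    have h1 := hy.tendsto_cofinite_zero.eventually (gt_mem_nhds hγ)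
    rw [Filter.eventually_cofinite] at h1
    refine h1.subset fun k hk => ?_
    exact not_lt.2 hk
  set G : Finset ℕ := hGfin.toFinset with hG
  have hGmem : ∀ k, k ∈ G ↔ γ ≤ y k := by
    intro k
    simp [hG]
  have hfinval : ∃ η : ℝ, 0 < η ∧ η ≤ γ ∧ ∀ F ∈ G.powerset,
      (∑ k ∈ F, y k ≤ c - m ∨ c - m + η ≤ ∑ k ∈ F, y k) := by
    have h1 : ∀ᶠ η : ℝ in 𝓝[>] 0, ∀ F ∈ G.powerset,
        (∑ k ∈ F, y k ≤ c - m ∨ c - m + η ≤ ∑ k ∈ F, y k) := by
      rw [Finset.eventually_all]
      intro F _
      by_cases h : ∑ k ∈ F, y k ≤ c - m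
      · exact Eventually.of_forall fun _ => Or.inl h
      · have h2 : 0 < ∑ k ∈ F, y k - (c - m) := by linarith [not_le.1 h]
        filter_upwards [Ioo_mem_nhdsGT h2] with η hη
        exact Or.inr (by linarith [hη.2])
    have h2 : ∀ᶠ η : ℝ in 𝓝[>] 0, η ∈ Ioo 0 γ := Ioo_mem_nhdsGT hγ
    obtain ⟨η, hη1, hη2⟩ := (h1.and h2).exists
    exact ⟨η, hη2.1, hη2.2.le, hη1⟩
  obtain ⟨η, hη0, hηγ, hη⟩ := hfinval
  refine ⟨η, hη0, hηγ, fun E hE1 hE2 => ?_⟩
  have hcoe : E ∩ {k | γ ≤ y k} = ((G.filter (· ∈ E) : Finset ℕ) : Set ℕ) := by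
    ext k
    simp [hGmem, and_comm]
  have hval : ∑' k, (E ∩ {k | γ ≤ y k}).indicator y k = ∑ k ∈ G.filter (· ∈ E), y k := by
    rw [hcoe, psi_finset]
  have hdec : ∑' k, E.indicator y k = ∑' k, (E ∩ {k | γ ≤ y k}).indicator y k +
      ∑' k, (E \ {k | γ ≤ y k}).indicator y k := by
    rw [← psi_union hy (disjoint_sdiff_inter.symm), inter_union_sdiff]
  rcases lt_trichotomy (∑' k, (E ∩ {k | γ ≤ y k}).indicator y k) (c - m) with h | h | h
  · exfalso
    -- partial sums never cross the gap
    let u : ℕ → ℝ := fun n => m + (∑' k, (E ∩ {k | γ ≤ y k}).indicator y k +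
      ∑ k ∈ Finset.range n, (E \ {k | γ ≤ y k}).indicator y k)
    have hu : ∀ n, ∃ E' : Set ℕ, u n = m + ∑' k, E'.indicator y k := by
      intro n
      refine ⟨(E ∩ {k | γ ≤ y k}) ∪
        (((Finset.range n).filter (· ∈ E \ {k | γ ≤ y k}) : Finset ℕ) : Set ℕ), ?_⟩
      rw [psi_union hy, psi_finset]
      · simp only [u]
        congr 2
        rw [Finset.sum_filter]
        refine Finset.sum_congr rfl fun k _ => ?_
        by_cases hk : k ∈ E \ {k | γ ≤ y k}
        · rw [indicator_of_mem hk, if_pos hk]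
        · rw [indicator_of_notMem hk, if_neg hk]
      · rw [Set.disjoint_left]
        intro k hk hk'
        have := (Finset.mem_filter.1 (Finset.mem_coe.1 hk')).2
        exact this.2 hk.2
    have hstep : ∀ n, u (n + 1) < u n + γ := by
      intro n
      simp only [u, Finset.sum_range_succ]
      have : (E \ {k | γ ≤ y k}).indicator y n < γ := by
        by_cases hk : n ∈ E \ {k | γ ≤ y k}
        · rw [indicator_of_mem hk]
          exact not_le.1 hk.2
        · rw [indicator_of_notMem hk]
          exact hγ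
      linarith
    have hall : ∀ n, u n ≤ c - γ := by
      intro n
      induction n with
      | zero =>
        obtain ⟨E', hE'⟩ := hu 0
        rw [hE']
        refine hgap E' ?_
        rw [← hE']
        simp only [u, Finset.range_zero, Finset.sum_empty, add_zero]
        linarith
      | succ n ih =>
        obtain ⟨E', hE'⟩ := hu (n + 1)
        rw [hE']
        refine hgap E' ?_
        rw [← hE']
        linarith [hstep n]
    have hlim : Tendsto u atTop (𝓝 (m + (∑' k, (E ∩ {k | γ ≤ y k}).indicator y k +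
        ∑' k, (E \ {k | γ ≤ y k}).indicator y k))) :=
      tendsto_const_nhds.add (tendsto_const_nhds.add
        (hy.indicator _).hasSum.tendsto_sum_nat)
    have := le_of_tendsto' hlim hall
    rw [← hdec] at this
    linarith
  · exact h
  · exfalso
    have h1 := hη (G.filter (· ∈ E)) (Finset.mem_powerset.2 (Finset.filter_subset _ _))
    rw [← hval] at h1
    have h2 := psi_nonneg hy0 (E \ {k | γ ≤ y k})
    rcases h1 with h1 | h1 <;> linarith

/-- In a closed set with empty interior, points with a gap on their left are dense. -/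
theorem exists_left_gap {C : Set ℝ} (hC : IsClosed C) (hint : interior C = ∅) {c₀ : ℝ}
    (hc₀ : c₀ ∈ C) {δ : ℝ} (hδ : 0 < δ) :
    ∃ c ∈ C, c₀ - δ < c ∧ c ≤ c₀ ∧ ∃ γ : ℝ, 0 < γ ∧ ∀ z ∈ C, z < c → z ≤ c - γ := by
  have h1 : ∃ g ∈ Ioo (c₀ - δ) c₀, g ∉ C := by
    by_contra hcon
    push Not at hcon
    have h2 : Ioo (c₀ - δ) c₀ ⊆ interior C := interior_maximal hcon isOpen_Ioo
    rw [hint] at h2
    exact h2 (show c₀ - δ / 2 ∈ Ioo (c₀ - δ) c₀ from ⟨by linarith, by linarith⟩)
  obtain ⟨g, ⟨hg1, hg2⟩, hgC⟩ := h1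
  have hne : (C ∩ Ici g).Nonempty := ⟨c₀, hc₀, hg2.le⟩
  have hbdd : BddBelow (C ∩ Ici g) := ⟨g, fun z hz => hz.2⟩
  have hmem := (hC.inter isClosed_Ici).csInf_mem hne hbdd
  set c := sInf (C ∩ Ici g) with hc
  have hgc : g < c := by
    rcases lt_or_eq_of_le (mem_Ici.1 hmem.2) with h | h
    · exact h
    · exact absurd (h ▸ hmem.1) hgC
  refine ⟨c, hmem.1, by linarith, csInf_le hbdd ⟨hc₀, hg2.le⟩, c - g, by linarith, ?_⟩
  intro z hz hzc
  by_contra hcon
  have : z ∈ C ∩ Ici g := ⟨hz, by simp only [mem_Ici]; linarith⟩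
  exact absurd (csInf_le hbdd this) (not_le.2 hzc)

/-- The nowhere dense case of the zero-one law. -/
theorem nowhereDense_case {J : Set (Set ℕ)} (hJ : TailInvariant J) (hy0 : ∀ k, 0 ≤ y k)
    (hy : Summable y) (m : ℝ) {C B : Set ℝ}
    (hC : C = {t | ∃ E : Set ℕ, t = m + ∑' k, E.indicator y k})
    (hB : B = {t | ∃ E ∈ J, t = m + ∑' k, E.indicator y k}) (hint : interior C = ∅) :
    IsMeagre ((↑) ⁻¹' B : Set C) ∨
      ∀ O : Set C, IsOpen O → O.Nonempty → ¬ IsMeagre (((↑) ⁻¹' B : Set C) ∩ O) := by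
  have hCclosed : IsClosed C := by
    have h1 := (isCompact_tail hy m 0).isClosed
    have h2 : {t : ℝ | ∃ A : Set ℕ, (∀ k < 0, k ∉ A) ∧ t = m + ∑' k, A.indicator y k} = C := by
      rw [hC]
      ext t
      simp
    rwa [h2] at h1
  have hmC : ∀ z ∈ C, m ≤ z := by
    intro z hz
    rw [hC] at hz
    obtain ⟨E, rfl⟩ := hz
    have := psi_nonneg hy0 E
    linarith
  -- local structure at points with a gap on the left
  have hlocal : ∀ c ∈ C, ∀ γ : ℝ, 0 < γ → (∀ z ∈ C, z < c → z ≤ c - γ) →
      ∃ η : ℝ, 0 < η ∧ η ≤ γ ∧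
        (∀ z ∈ C, c - γ < z → z < c + η → z + (m - c) ∈ C ∧ (z ∈ B → z + (m - c) ∈ B)) ∧
        (∀ z ∈ C, z < m + η → z + (c - m) ∈ C ∧ (z ∈ B → z + (c - m) ∈ B)) := by
    intro c hc γ hγ hgap
    obtain ⟨η, hη0, hηγ, hη⟩ := exists_window hy0 hy m c hγ (by
      intro E hE
      exact hgap _ (by rw [hC]; exact ⟨E, rfl⟩) hE)
    have hfwd : ∀ E : Set ℕ, c - γ < m + ∑' k, E.indicator y k →
        m + ∑' k, E.indicator y k < c + η →
        m + ∑' k, E.indicator y k + (m - c) =
          m + ∑' k, (E \ {k | γ ≤ y k}).indicator y k := by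
      intro E h1 h2
      have h3 := hη E h1 h2
      have h4 : ∑' k, E.indicator y k = ∑' k, (E ∩ {k | γ ≤ y k}).indicator y k +
          ∑' k, (E \ {k | γ ≤ y k}).indicator y k := by
        rw [← psi_union hy (disjoint_sdiff_inter.symm), inter_union_sdiff]
      rw [h4, h3]
      ring
    have hGfin : {k | γ ≤ y k}.Finite := by
      have h1 := hy.tendsto_cofinite_zero.eventually (gt_mem_nhds hγ)
      rw [Filter.eventually_cofinite] at h1
      refine h1.subset fun k hk => ?_
      exact not_lt.2 hk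
    obtain ⟨n₀, hn₀⟩ := hGfin.bddAbove
    have hJdiff : ∀ E ∈ J, E \ {k | γ ≤ y k} ∈ J := by
      intro E hE
      refine hJ E hE _ ⟨n₀ + 1, fun k hk => ?_⟩
      have : k ∉ {k | γ ≤ y k} := fun h => by
        have := hn₀ h
        omega
      simp only [Set.mem_sdiff]
      tauto
    have hcE : ∃ Ec : Set ℕ, c = m + ∑' k, Ec.indicator y k := by
      rw [hC] at hc
      exact hc
    obtain ⟨Ec, hEc⟩ := hcE
    have hcG : ∑' k, (Ec ∩ {k | γ ≤ y k}).indicator y k = c - m :=
      hη Ec (by rw [← hEc]; linarith) (by rw [← hEc]; linarith)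
    have hbwd : ∀ E : Set ℕ, m + ∑' k, E.indicator y k < m + η →
        m + ∑' k, E.indicator y k + (c - m) =
          m + ∑' k, (E ∪ (Ec ∩ {k | γ ≤ y k})).indicator y k := by
      intro E h1
      have hdisj : Disjoint E (Ec ∩ {k | γ ≤ y k}) := by
        rw [Set.disjoint_left]
        intro k hk hk'
        have h2 := psi_le_of_mem hy0 hy hk
        have h3 : γ ≤ y k := hk'.2
        linarith
      rw [psi_union hy hdisj, hcG]
      ring
    have hJunion : ∀ E ∈ J, E ∪ (Ec ∩ {k | γ ≤ y k}) ∈ J := by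
      intro E hE
      refine hJ E hE _ ⟨n₀ + 1, fun k hk => ?_⟩
      have : k ∉ {k | γ ≤ y k} := fun h => by
        have := hn₀ h
        omega
      simp only [mem_union, mem_inter_iff]
      tauto
    refine ⟨η, hη0, hηγ, ?_, ?_⟩
    · intro z hz h1 h2
      constructor
      · rw [hC] at hz ⊢
        obtain ⟨E, rfl⟩ := hz
        exact ⟨_, hfwd E h1 h2⟩
      · intro hzB
        rw [hB] at hzB ⊢
        obtain ⟨E, hE, rfl⟩ := hzB
        exact ⟨_, hJdiff E hE, hfwd E h1 h2⟩
    · intro z hz h1
      constructor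
      · rw [hC] at hz ⊢
        obtain ⟨E, rfl⟩ := hz
        exact ⟨_, hbwd E h1⟩
      · intro hzB
        rw [hB] at hzB ⊢
        obtain ⟨E, hE, rfl⟩ := hzB
        exact ⟨_, hJunion E hE, hbwd E h1⟩
  have hBC : B ⊆ C := by
    rw [hB, hC]
    rintro t ⟨E, _, h⟩
    exact ⟨E, h⟩
  by_cases h : ∃ η₀ : ℝ, 0 < η₀ ∧ IsMeagre ((↑) ⁻¹' (B ∩ Ioo (m - 1) (m + η₀)) : Set C)
  · left
    obtain ⟨η₀, hη₀, hm⟩ := h
    let W : Set C := ⋃ p : ℚ × ℚ,
      ⋃ _ : IsMeagre ((↑) ⁻¹' (B ∩ Ioo (p.1 : ℝ) (p.2 : ℝ)) : Set C),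
        ((↑) ⁻¹' (Ioo (p.1 : ℝ) (p.2 : ℝ)) : Set C)
    have hWopen : IsOpen W := isOpen_iUnion fun p => isOpen_iUnion fun _ =>
      isOpen_Ioo.preimage continuous_subtype_val
    have hWm : IsMeagre (((↑) ⁻¹' B : Set C) ∩ W) := by
      have hsub : ((↑) ⁻¹' B : Set C) ∩ W ⊆ ⋃ p : ℚ × ℚ,
          ⋃ _ : IsMeagre ((↑) ⁻¹' (B ∩ Ioo (p.1 : ℝ) (p.2 : ℝ)) : Set C),
            ((↑) ⁻¹' (B ∩ Ioo (p.1 : ℝ) (p.2 : ℝ)) : Set C) := by
        rintro z ⟨hz, hzW⟩
        simp only [W, mem_iUnion] at hzW ⊢
        obtain ⟨p, hp, hzp⟩ := hzW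
        exact ⟨p, hp, hz, hzp⟩
      refine IsMeagre.mono hsub (isMeagre_iUnion fun p => isMeagre_iUnion fun hp => hp)
    have hWdense : Dense W := by
      rw [dense_iff_inter_open]
      rintro U hU ⟨u, hu⟩
      obtain ⟨V, hV, rfl⟩ := isOpen_induced_iff.1 hU
      obtain ⟨δ, hδ, hball⟩ := Metric.isOpen_iff.1 hV u hu
      obtain ⟨c, hc, hc1, hc2, γ, hγ, hgap⟩ := exists_left_gap hCclosed hint u.2 hδ
      obtain ⟨η, hη0, hηγ, hfw, hbw⟩ := hlocal c hc γ hγ hgap
      refine ⟨⟨c, hc⟩, hball ?_, ?_⟩
      · rw [Metric.mem_ball, Real.dist_eq, abs_lt]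
        constructor
        · simp only
          linarith
        · simp only
          linarith
      · set η' := min η η₀ with hη'
        have hη'0 : 0 < η' := lt_min hη0 hη₀
        obtain ⟨p, hp1, hp2⟩ := exists_rat_btwn (show c - γ < c by linarith)
        obtain ⟨q, hq1, hq2⟩ := exists_rat_btwn (show c < c + η' by linarith)
        simp only [W, mem_iUnion]
        refine ⟨(p, q), ?_, hp2, hq1⟩
        have h1 := isMeagre_preimage_translate (C := C) (O := Iio (m + η')) isOpen_Iio
          (τ := c - m) (fun z hz hzO => (hbw z hz (lt_of_lt_of_le hzO (by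
            have := min_le_left η η₀
            linarith))).1) hm
        refine IsMeagre.mono ?_ h1
        rintro w ⟨hwB, hwp, hwq⟩
        have hw1 : c - γ < (w : ℝ) := lt_trans hp1 hwp
        have hw2 : (w : ℝ) < c + η' := lt_trans hwq hq2
        have hw3 : (w : ℝ) < c + η := lt_of_lt_of_le hw2 (by
          have := min_le_left η η₀
          linarith)
        obtain ⟨h2, h3⟩ := hfw w w.2 hw1 hw3
        have h4 := h3 hwB
        have h5 : (w : ℝ) - (c - m) = w + (m - c) := by ring
        have h6 := hmC _ h2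
        have h7 := min_le_right η η₀
        change (w : ℝ) - (c - m) ∈ (B ∩ Ioo (m - 1) (m + η₀)) ∩ Iio (m + η') ∩ C
        rw [h5]
        refine ⟨⟨⟨h4, ?_, ?_⟩, ?_⟩, h2⟩
        · linarith
        · linarith
        · simp only [mem_Iio]
          linarith
    have hWc : IsMeagre Wᶜ := by
      rw [IsMeagre, compl_compl]
      exact residual_of_dense_open hWopen hWdense
    refine IsMeagre.mono ?_ (hWm.union hWc)
    intro z hz
    by_cases hzW : z ∈ W
    · exact Or.inl ⟨hz, hzW⟩
    · exact Or.inr hzW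
  · right
    push Not at h
    rintro O hO ⟨u, hu⟩ hmO
    obtain ⟨V, hV, rfl⟩ := isOpen_induced_iff.1 hO
    obtain ⟨δ, hδ, hball⟩ := Metric.isOpen_iff.1 hV u hu
    have hδ2 : 0 < δ / 2 := by linarith
    obtain ⟨c, hc, hc1, hc2, γ, hγ, hgap⟩ := exists_left_gap hCclosed hint u.2 hδ2
    obtain ⟨η, hη0, hηγ, hfw, hbw⟩ := hlocal c hc γ hγ hgap
    set η' := min η (δ / 2) with hη'
    have hη'0 : 0 < η' := lt_min hη0 hδ2
    have hη'1 : η' ≤ η := min_le_left _ _
    have hη'2 : η' ≤ δ / 2 := min_le_right _ _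
    refine h η' hη'0 ?_
    have hmO' : IsMeagre ((↑) ⁻¹' (B ∩ V) : Set C) := hmO
    have h1 := isMeagre_preimage_translate (C := C) (O := Ioo (c - γ) (c + η)) isOpen_Ioo
      (τ := m - c) (fun z hz hzO => (hfw z hz hzO.1 hzO.2).1) hmO'
    refine IsMeagre.mono ?_ h1
    rintro w ⟨hwB, hw1, hw2⟩
    have hwm := hmC _ w.2
    obtain ⟨h2, h3⟩ := hbw w w.2 (by linarith)
    have h4 := h3 hwB
    have h5 : (w : ℝ) - (m - c) = w + (c - m) := by ring
    change (w : ℝ) - (m - c) ∈ (B ∩ V) ∩ Ioo (c - γ) (c + η) ∩ C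
    rw [h5]
    refine ⟨⟨⟨h4, hball ?_⟩, ?_, ?_⟩, h2⟩
    · rw [Metric.mem_ball, Real.dist_eq, abs_lt]
      constructor <;> linarith
    · linarith
    · linarith

end NowhereDense

/-! ### The zero-one law -/

/-- Comparison of representations with the nonnegative sequence `|x|`. -/
theorem indicator_eq_add_symmDiff (x : ℕ → ℝ) (A : Set ℕ) (k : ℕ) :
    A.indicator x k = ({k | x k < 0} : Set ℕ).indicator x k +
      (symmDiff A {k | x k < 0}).indicator (fun k => |x k|) k := by
  classical
  simp only [indicator_apply, mem_symmDiff, mem_ofPred_eq]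
  by_cases hA : k ∈ A <;> by_cases hx : x k < 0
  · simp [hA, hx]
  · simp [hA, hx, abs_of_nonneg (not_lt.1 hx)]
  · simp [hA, hx, abs_of_neg hx]
  · simp [hA, hx]

/-- The zero-one dichotomy for families of sets invariant under finite modifications. -/
theorem dichotomy {J : Set (Set ℕ)} (hJ : TailInvariant J) {x : ℕ → ℝ}
    (hx : ∃ L, SumsTo x univ L) :
    IsMeagre (idealAchievementSet J x) ∨ ∀ O : Set (achievementSet x), IsOpen O → O.Nonempty →
      ¬ IsMeagre (idealAchievementSet J x ∩ O) := by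
  -- the case of dense interior
  have hdense : achievementSet x ⊆ closure (interior (achievementSet x)) →
      IsMeagre (idealAchievementSet J x) ∨ ∀ O : Set (achievementSet x), IsOpen O → O.Nonempty →
      ¬ IsMeagre (idealAchievementSet J x ∩ O) := by
    intro hC
    by_cases hB : IsMeagre {t : ℝ | ∃ A ∈ J, SumsTo x A t}
    · exact Or.inl (isMeagre_preimage_of_dense_interior hC hB)
    · right
      rintro O hO ⟨c, hc⟩ hm
      obtain ⟨V, hV, rfl⟩ := isOpen_induced_iff.1 hO
      obtain ⟨ε, hε, hball⟩ := Metric.isOpen_iff.1 hV c hc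
      refine not_isMeagre_near hJ hB c.2 hε ?_
      refine IsMeagre.mono ?_ hm.image_val
      rintro t ⟨⟨A, hA, hAt⟩, ht1, ht2⟩
      refine ⟨⟨t, A, hAt⟩, ⟨⟨A, hA, hAt⟩, hball ?_⟩, rfl⟩
      rw [Metric.mem_ball, Real.dist_eq, abs_lt]
      constructor <;> linarith
  by_cases hsum : Summable x
  · by_cases hint : interior (achievementSet x) = ∅
    · -- nowhere dense case
      let N : Set ℕ := {k | x k < 0}
      let J' : Set (Set ℕ) := {E | symmDiff E N ∈ J}
      have hJ' : TailInvariant J' := by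
        rintro E hE E' ⟨n, hn⟩
        refine hJ _ hE _ ⟨n, fun k hk => ?_⟩
        have := hn k hk
        simp only [mem_symmDiff]
        tauto
      have hrep : ∀ A : Set ℕ, ∑' k, A.indicator x k = ∑' k, N.indicator x k +
          ∑' k, (symmDiff A N).indicator (fun k => |x k|) k := by
        intro A
        rw [← (hsum.indicator N).tsum_add (hsum.abs.indicator (symmDiff A N))]
        congr 1
        funext k
        exact indicator_eq_add_symmDiff x A k
      have hCeq : achievementSet x = {t | ∃ E : Set ℕ, t = ∑' k, N.indicator x k +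
          ∑' k, E.indicator (fun k => |x k|) k} := by
        ext t
        constructor
        · rintro ⟨A, hA⟩
          exact ⟨symmDiff A N, by rw [(sumsTo_iff hsum).1 hA, hrep A]⟩
        · rintro ⟨E, hE⟩
          refine ⟨symmDiff E N, (sumsTo_iff hsum).2 ?_⟩
          rw [hrep (symmDiff E N), symmDiff_symmDiff_cancel_right, hE]
      have hBeq : {t : ℝ | ∃ A ∈ J, SumsTo x A t} = {t | ∃ E ∈ J', t = ∑' k, N.indicator x k +
          ∑' k, E.indicator (fun k => |x k|) k} := by
        ext t
        constructor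
        · rintro ⟨A, hAJ, hA⟩
          refine ⟨symmDiff A N, ?_, by rw [(sumsTo_iff hsum).1 hA, hrep A]⟩
          change symmDiff (symmDiff A N) N ∈ J
          rwa [symmDiff_symmDiff_cancel_right]
        · rintro ⟨E, hEJ, hE⟩
          refine ⟨symmDiff E N, hEJ, (sumsTo_iff hsum).2 ?_⟩
          rw [hrep (symmDiff E N), symmDiff_symmDiff_cancel_right, hE]
      exact nowhereDense_case hJ' (fun k => abs_nonneg (x k)) hsum.abs _ hCeq hBeq hint
    · exact hdense (subset_closure_interior hsum (nonempty_iff_ne_empty.2 hint))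
  · refine hdense ?_
    rw [achievementSet_eq_univ hx hsum]
    simp

end Pool.Agent.Helper96.Achievement
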