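import Mathlib
import Pool.Agent.Helper96.RecurrenceFree

/-!
# `SL₂(K)` for fields `K` of characteristic zero

* it is not amenable;
* if `K` has more than continuum many elements, every action of `SL₂(K)` on a compact metric space
  is trivial.
-/

namespace Helper96.Recurrence

open MeasureTheory Set Matrix
open scoped MatrixGroups

universe u v

section Entries

variable {R : Type u} [CommRing R]

theorem mul_entry (g h : SL(2, R)) (i j : Fin 2) :
    (g * h) i j = g i 0 * h 0 j + g i 1 * h 1 j := by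
  rw [Matrix.SpecialLinearGroup.coe_mul, Matrix.mul_apply, Fin.sum_univ_two]

end Entries

section Amenable

/-- The indicator function of a set. -/
noncomputable def ind {G : Type u} (E : Set G) : G → ℝ := E.indicator (fun _ => (1 : ℝ))

theorem isBdd_ind {G : Type u} (E : Set G) : IsBdd (ind E) := by
  refine ⟨1, fun g => ?_⟩
  by_cases h : g ∈ E <;> simp [ind, h]

theorem IsBdd.add {G : Type u} {f f' : G → ℝ} (hf : IsBdd f) (hf' : IsBdd f') :
    IsBdd (fun h => f h + f' h) := by
  obtain ⟨C, hC⟩ := hf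
  obtain ⟨D, hD⟩ := hf'
  exact ⟨C + D, fun g => (abs_add_le _ _).trans (add_le_add (hC g) (hD g))⟩

theorem IsBdd.mul {G : Type u} {f : G → ℝ} (c : ℝ) (hf : IsBdd f) :
    IsBdd (fun h => c * f h) := by
  obtain ⟨C, hC⟩ := hf
  refine ⟨|c| * C, fun g => ?_⟩
  rw [abs_mul]
  exact mul_le_mul_of_nonneg_left (hC g) (abs_nonneg c)

theorem mean_mono {G : Type u} [Group G] {m : (G → ℝ) → ℝ} (hm : IsLeftInvariantMean m)
    {f f' : G → ℝ} (hf : IsBdd f) (hf' : IsBdd f') (h : ∀ g, f g ≤ f' g) : m f ≤ m f' := by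
  have h1 : m (fun h => f' h + (-1) * f h) = m f' + (-1) * m f := by
    rw [hm.add f' (fun h => (-1) * f h) hf' (hf.mul (-1)), hm.smul (-1) f hf]
  have h2 : 0 ≤ m (fun h => f' h + (-1) * f h) := by
    apply hm.nonneg _ (hf'.add (hf.mul (-1)))
    intro g
    have := h g
    linarith
  rw [h1] at h2
  linarith

/-- A ping-pong paradox excludes invariant means. -/
theorem not_isAmenable_of_pingpong {G : Type u} [Group G] (a b : G) (A₁ A₂ B₁ B₂ : Set G)
    (ha : ∀ g, g ∉ A₂ → a * g ∈ A₁) (hb : ∀ g, g ∉ B₂ → b * g ∈ B₁)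
    (hdisj : ∀ g, (A₁.indicator (fun _ => (1 : ℝ)) g + A₂.indicator (fun _ => (1 : ℝ)) g) +
      (B₁.indicator (fun _ => (1 : ℝ)) g + B₂.indicator (fun _ => (1 : ℝ)) g) ≤ 1) :
    ¬ IsAmenable G := by
  rintro ⟨m, hm⟩
  have hone : IsBdd (fun _ : G => (1 : ℝ)) := ⟨1, fun _ => by simp⟩
  have key : ∀ (c : G) (C₁ C₂ : Set G), (∀ g, g ∉ C₂ → c * g ∈ C₁) →
      1 ≤ m (ind C₁) + m (ind C₂) := by
    intro c C₁ C₂ hc
    have e1 : m (ind {g | c * g ∈ C₁}) = m (ind C₁) := by
      have h1 := hm.invariant c⁻¹ (ind C₁) (isBdd_ind C₁)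
      rw [← h1]
      congr 1
      funext h
      rw [inv_inv]
      rfl
    rw [← e1, ← hm.add _ _ (isBdd_ind _) (isBdd_ind _), ← hm.one]
    apply mean_mono hm hone ((isBdd_ind _).add (isBdd_ind _))
    intro h
    by_cases h2 : h ∈ C₂
    · have h3 : (0 : ℝ) ≤ ind {g | c * g ∈ C₁} h :=
        indicator_nonneg (fun _ _ => zero_le_one) h
      have h4 : ind C₂ h = 1 := by simp [ind, h2]
      linarith
    · have h3 : h ∈ {g | c * g ∈ C₁} := hc h h2
      have h4 : ind {g | c * g ∈ C₁} h = 1 := by simp only [ind, indicator_of_mem h3]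
      have h5 : ind C₂ h = 0 := by simp [ind, h2]
      linarith
  have k1 := key a A₁ A₂ ha
  have k2 := key b B₁ B₂ hb
  have k3 : m (fun h => (ind A₁ h + ind A₂ h) + (ind B₁ h + ind B₂ h)) ≤ m (fun _ => 1) := by
    apply mean_mono hm (((isBdd_ind _).add (isBdd_ind _)).add ((isBdd_ind _).add (isBdd_ind _)))
      hone
    intro g
    exact hdisj g
  rw [hm.add _ _ ((isBdd_ind _).add (isBdd_ind _)) ((isBdd_ind _).add (isBdd_ind _)),
    hm.add _ _ (isBdd_ind _) (isBdd_ind _), hm.add _ _ (isBdd_ind _) (isBdd_ind _), hm.one] at k3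
  linarith

theorem ite_sum_le (P Q R S : Prop) [Decidable P] [Decidable Q] [Decidable R] [Decidable S]
    (h1 : ¬ (P ∧ Q)) (h2 : ¬ (R ∧ S)) (h3 : ¬ (P ∧ R)) (h4 : ¬ (P ∧ S)) (h5 : ¬ (Q ∧ R))
    (h6 : ¬ (Q ∧ S)) :
    (((if P then (1 : ℝ) else 0) + (if Q then 1 else 0)) +
      ((if R then 1 else 0) + (if S then 1 else 0))) ≤ 1 := by
  by_cases hP : P <;> by_cases hQ : Q <;> by_cases hR : R <;> by_cases hS : S <;>
    simp_all

theorem pingpong_ints (X Y : ℤ) (h0 : X ≠ 0 ∨ Y ≠ 0) :
    (¬ ((X * Y > 2 * Y ^ 2 ∨ Y = 0) ∧ (X * Y ≤ -2 * Y ^ 2 ∧ Y ≠ 0))) ∧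
    (¬ ((X * Y > 2 * X ^ 2 ∨ X = 0) ∧ (X * Y ≤ -2 * X ^ 2 ∧ X ≠ 0))) ∧
    (¬ ((X * Y > 2 * Y ^ 2 ∨ Y = 0) ∧ (X * Y > 2 * X ^ 2 ∨ X = 0))) ∧
    (¬ ((X * Y > 2 * Y ^ 2 ∨ Y = 0) ∧ (X * Y ≤ -2 * X ^ 2 ∧ X ≠ 0))) ∧
    (¬ ((X * Y ≤ -2 * Y ^ 2 ∧ Y ≠ 0) ∧ (X * Y > 2 * X ^ 2 ∨ X = 0))) ∧
    (¬ ((X * Y ≤ -2 * Y ^ 2 ∧ Y ≠ 0) ∧ (X * Y ≤ -2 * X ^ 2 ∧ X ≠ 0))) := by
  refine ⟨?_, ?_, ?_, ?_, ?_, ?_⟩
  · rintro ⟨h1 | h1, h2, h3⟩
    · have : 0 < Y ^ 2 := by positivity
      nlinarith
    · exact h3 h1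
  · rintro ⟨h1 | h1, h2, h3⟩
    · have : 0 < X ^ 2 := by positivity
      nlinarith
    · exact h3 h1
  · rintro ⟨h1 | h1, h2 | h2⟩
    · nlinarith [sq_nonneg (X - Y), sq_nonneg X, sq_nonneg Y]
    · subst h2; nlinarith [sq_nonneg Y]
    · subst h1; nlinarith [sq_nonneg X]
    · rcases h0 with h0 | h0
      · exact h0 h2
      · exact h0 h1
  · rintro ⟨h1 | h1, h2, h3⟩
    · have : 0 < X ^ 2 := by positivity
      nlinarith [sq_nonneg Y]
    · subst h1
      have : 0 < X ^ 2 := by positivity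
      nlinarith
  · rintro ⟨⟨h1, h2⟩, h3 | h3⟩
    · have : 0 < Y ^ 2 := by positivity
      nlinarith [sq_nonneg X]
    · subst h3
      have : 0 < Y ^ 2 := by positivity
      nlinarith
  · rintro ⟨⟨h1, h2⟩, h3, h4⟩
    have hX : 0 < X ^ 2 := by positivity
    have hY : 0 < Y ^ 2 := by positivity
    nlinarith [sq_nonneg (X + Y), sq_nonneg (X - Y)]

/-- `SL₂(K)` is not amenable when `K` has characteristic zero. -/
theorem not_isAmenable_SL2 (K : Type u) [Field K] [CharZero K] : ¬ IsAmenable SL(2, K) := by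
  obtain ⟨ρ, hρ⟩ := exists_equivariant (SpecialLinearGroup.map (n := Fin 2) (Int.castRingHom K))
    (by
      intro M N h
      apply Matrix.SpecialLinearGroup.ext
      intro i j
      have h1 : (SpecialLinearGroup.map (n := Fin 2) (Int.castRingHom K) M) i j =
        (SpecialLinearGroup.map (n := Fin 2) (Int.castRingHom K) N) i j := by rw [h]
      simpa using h1)
  set φ := SpecialLinearGroup.map (n := Fin 2) (Int.castRingHom K) with hφ
  let x : SL(2, K) → ℤ := fun g => (ρ g) 0 0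
  let y : SL(2, K) → ℤ := fun g => (ρ g) 1 0
  have hxy : ∀ g, x g ≠ 0 ∨ y g ≠ 0 := by
    intro g
    by_contra hcon
    push Not at hcon
    have hd := (ρ g).det_coe
    rw [Matrix.det_fin_two] at hd
    have h1 : (ρ g) 0 0 = 0 := hcon.1
    have h2 : (ρ g) 1 0 = 0 := hcon.2
    rw [h1, h2] at hd
    simp at hd
  let a₀ : SL(2, ℤ) := ⟨!![1, 4; 0, 1], by simp [Matrix.det_fin_two]⟩
  let b₀ : SL(2, ℤ) := ⟨!![1, 0; 4, 1], by simp [Matrix.det_fin_two]⟩
  have ax : ∀ g, x (φ a₀ * g) = x g + 4 * y g := by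
    intro g
    show (ρ (φ a₀ * g)) 0 0 = (ρ g) 0 0 + 4 * (ρ g) 1 0
    rw [hρ, mul_entry]
    simp [a₀]
  have ay : ∀ g, y (φ a₀ * g) = y g := by
    intro g
    show (ρ (φ a₀ * g)) 1 0 = (ρ g) 1 0
    rw [hρ, mul_entry]
    simp [a₀]
  have bx : ∀ g, x (φ b₀ * g) = x g := by
    intro g
    show (ρ (φ b₀ * g)) 0 0 = (ρ g) 0 0
    rw [hρ, mul_entry]
    simp [b₀]
  have hby : ∀ g, y (φ b₀ * g) = 4 * x g + y g := by
    intro g
    show (ρ (φ b₀ * g)) 1 0 = 4 * (ρ g) 0 0 + (ρ g) 1 0
    rw [hρ, mul_entry]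
    simp [b₀]
  refine not_isAmenable_of_pingpong (φ a₀) (φ b₀)
    {g | x g * y g > 2 * y g ^ 2 ∨ y g = 0} {g | x g * y g ≤ - 2 * y g ^ 2 ∧ y g ≠ 0}
    {g | x g * y g > 2 * x g ^ 2 ∨ x g = 0} {g | x g * y g ≤ - 2 * x g ^ 2 ∧ x g ≠ 0}
    ?_ ?_ ?_
  · intro g hg
    simp only [mem_ofPred_eq, ax, ay] at hg ⊢
    by_cases h : y g = 0
    · right; exact h
    · left
      have : ¬ (x g * y g ≤ -2 * y g ^ 2) := fun h' => hg ⟨h', h⟩
      nlinarith
  · intro g hg
    simp only [mem_ofPred_eq, bx, hby] at hg ⊢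
    by_cases h : x g = 0
    · right; exact h
    · left
      have : ¬ (x g * y g ≤ -2 * x g ^ 2) := fun h' => hg ⟨h', h⟩
      nlinarith
  · intro g
    have h0 := hxy g
    classical
    simp only [indicator_apply, mem_ofPred_eq]
    obtain ⟨hA, hB, h11, h12, h21, h22⟩ := pingpong_ints (x g) (y g) h0
    exact ite_sum_le _ _ _ _ hA hB h11 h12 h21 h22

end Amenable

section TrivialActions

variable {K : Type u} [Field K]

/-- Upper unipotent matrices. -/
def upper (c : K) : SL(2, K) := ⟨!![1, c; 0, 1], by simp [Matrix.det_fin_two]⟩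

/-- Lower unipotent matrices. -/
def lower (c : K) : SL(2, K) := ⟨!![1, 0; c, 1], by simp [Matrix.det_fin_two]⟩

/-- Diagonal matrices. -/
def diagonal (t : K) (ht : t ≠ 0) : SL(2, K) :=
  ⟨!![t, 0; 0, t⁻¹], by simp [Matrix.det_fin_two, ht]⟩

/-- The Weyl element. -/
def weyl : SL(2, K) := ⟨!![0, 1; -1, 0], by simp [Matrix.det_fin_two]⟩

theorem upper_add (c d : K) : upper (c + d) = upper c * upper d := by
  apply Matrix.SpecialLinearGroup.ext
  intro i j
  rw [mul_entry]
  fin_cases i <;> fin_cases j <;>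
    simp [upper, add_comm]

theorem diagonal_conj (t c : K) (ht : t ≠ 0) :
    diagonal t ht * upper c * (diagonal t ht)⁻¹ = upper (t ^ 2 * c) := by
  rw [mul_inv_eq_iff_eq_mul]
  apply Matrix.SpecialLinearGroup.ext
  intro i j
  rw [mul_entry, mul_entry]
  fin_cases i <;> fin_cases j <;>
    (simp [upper, diagonal]; try field_simp)

theorem weyl_conj (c : K) : weyl * upper c * weyl⁻¹ = lower (-c) := by
  rw [mul_inv_eq_iff_eq_mul]
  apply Matrix.SpecialLinearGroup.ext
  intro i j
  rw [mul_entry, mul_entry]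
  fin_cases i <;> fin_cases j <;>
    simp [upper, lower, weyl]

/-- A normal subgroup of `SL₂(K)`, `char K ≠ 2`, containing a non-trivial unipotent is everything. -/
theorem normal_eq_top (h2 : (2 : K) ≠ 0) (N : Subgroup SL(2, K)) [hN : N.Normal] (c : K)
    (hc : c ≠ 0) (hcN : upper c ∈ N) : N = ⊤ := by
  have hsq : ∀ t : K, upper (t ^ 2 * c) ∈ N := by
    intro t
    by_cases ht : t = 0
    · subst ht
      have : upper ((0 : K) ^ 2 * c) = 1 := by
        apply Matrix.SpecialLinearGroup.ext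
        intro i j
        fin_cases i <;> fin_cases j <;> simp [upper]
      rw [this]; exact N.one_mem
    · rw [← diagonal_conj t c ht]
      exact hN.conj_mem _ hcN _
  have hinv : ∀ d : K, upper d ∈ N → upper (-d) ∈ N := by
    intro d hd
    have : upper (-d) = (upper d)⁻¹ := by
      rw [eq_inv_iff_mul_eq_one, ← upper_add]
      apply Matrix.SpecialLinearGroup.ext
      intro i j
      fin_cases i <;> fin_cases j <;> simp [upper]
    rw [this]; exact N.inv_mem hd
  have hup : ∀ z : K, upper z ∈ N := by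
    intro z
    have e : z = ((z / c + 1) / 2) ^ 2 * c + -(((z / c - 1) / 2) ^ 2 * c) := by
      field_simp
      ring
    rw [e, upper_add]
    exact N.mul_mem (hsq _) (hinv _ (hsq _))
  have hlow : ∀ z : K, lower z ∈ N := by
    intro z
    have e : lower z = weyl * upper (-z) * weyl⁻¹ := by rw [weyl_conj, neg_neg]
    rw [e]
    exact hN.conj_mem _ (hup _) _
  have hmain : ∀ g : SL(2, K), g 1 0 ≠ 0 → g ∈ N := by
    intro g hg
    have hdet : g 0 0 * g 1 1 - g 0 1 * g 1 0 = 1 := by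
      have := g.det_coe
      rwa [Matrix.det_fin_two] at this
    have e : g = upper ((g 0 0 - 1) / g 1 0) * lower (g 1 0) * upper ((g 1 1 - 1) / g 1 0) := by
      apply Matrix.SpecialLinearGroup.ext
      intro i j
      rw [mul_entry, mul_entry, mul_entry]
      fin_cases i <;> fin_cases j
      · simp [upper, lower]
        field_simp
        ring
      · simp [upper, lower]
        field_simp
        linear_combination (-1 : K) * hdet
      · simp [upper, lower]
      · simp [upper, lower]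
        field_simp
        ring
    rw [e]
    exact N.mul_mem (N.mul_mem (hup _) (hlow _)) (hup _)
  rw [Subgroup.eq_top_iff']
  intro g
  by_cases hg : g 1 0 = 0
  · have h1 : (lower 1 * g) ∈ N := by
      apply hmain
      have hdet : g 0 0 * g 1 1 - g 0 1 * g 1 0 = 1 := by
        have := g.det_coe
        rwa [Matrix.det_fin_two] at this
      have : ((lower 1 * g : SL(2, K))) 1 0 = g 0 0 := by
        rw [mul_entry]
        simp [lower, hg]
      rw [this]
      intro h0
      rw [h0, hg] at hdet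
      simp at hdet
    have h3 := N.mul_mem (N.inv_mem (hlow 1)) h1
    rwa [inv_mul_cancel_left] at h3
  · exact hmain g hg

/-- If `K` has more than continuum many elements, every action of `SL₂(K)` by homeomorphisms on a
compact metric space is trivial. -/
theorem smul_eq_self (h2 : (2 : K) ≠ 0) (hK : ∀ Φ : K → Set (ℕ × ℕ), ¬ Function.Injective Φ)
    (X : Type v) [MetricSpace X] [CompactSpace X] [MulAction SL(2, K) X]
    [ContinuousConstSMul SL(2, K) X] (g : SL(2, K)) (x : X) : g • x = x := by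
  have : Nonempty X := ⟨x⟩
  have hBne : (TopologicalSpace.countableBasis X).Nonempty := by
    obtain ⟨U, hU, -⟩ := (TopologicalSpace.isBasis_countableBasis X).exists_subset_of_mem_open
      (mem_univ x) isOpen_univ
    exact ⟨U, hU⟩
  obtain ⟨B, hB⟩ := (TopologicalSpace.countable_countableBasis X).exists_eq_range hBne
  let D := TopologicalSpace.denseSeq X
  let Φ : K → Set (ℕ × ℕ) := fun c => {p | upper c • D p.1 ∈ B p.2}
  have hΦ : ¬ Function.Injective Φ := hK Φ
  obtain ⟨c, d, hcd, hne⟩ : ∃ c d, Φ c = Φ d ∧ c ≠ d := by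
    unfold Function.Injective at hΦ
    push Not at hΦ
    obtain ⟨c, d, h⟩ := hΦ
    exact ⟨c, d, h⟩
  have hD : ∀ n, upper c • D n = upper d • D n := by
    intro n
    by_contra hcon
    obtain ⟨U, V, hU, hV, hcU, hdV, hUV⟩ := t2_separation hcon
    obtain ⟨W, hW, hcW, hWU⟩ :=
      (TopologicalSpace.isBasis_countableBasis X).exists_subset_of_mem_open hcU hU
    rw [hB] at hW
    obtain ⟨m, rfl⟩ := hW
    have h1 : (n, m) ∈ Φ c := hcW
    rw [hcd] at h1
    have h3 : upper d • D n ∈ U := hWU h1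
    exact Set.disjoint_left.mp hUV h3 hdV
  have hall : ∀ y : X, upper c • y = upper d • y := by
    have h3 : (fun y : X => upper c • y) = fun y => upper d • y := by
      apply (TopologicalSpace.denseRange_denseSeq X).equalizer (continuous_const_smul _)
        (continuous_const_smul _)
      funext n
      exact hD n
    intro y
    exact congrFun h3 y
  let N : Subgroup SL(2, K) := (MulAction.toPermHom SL(2, K) X).ker
  have hN : N = ⊤ := by
    apply normal_eq_top h2 N (c - d) (sub_ne_zero.mpr hne)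
    show upper (c - d) ∈ (MulAction.toPermHom SL(2, K) X).ker
    rw [MonoidHom.mem_ker]
    ext y
    show upper (c - d) • y = y
    have h3 := hall ((upper d)⁻¹ • y)
    rw [smul_inv_smul, ← mul_smul] at h3
    have h4 : upper (c - d) = upper c * (upper d)⁻¹ := by
      rw [eq_mul_inv_iff_mul_eq, ← upper_add, sub_add_cancel]
    rw [h4, h3]
  have hg : g ∈ N := by rw [hN]; trivial
  have hg' : (MulAction.toPermHom SL(2, K) X) g = 1 := hg
  have h5 := congrArg (fun e : Equiv.Perm X => e x) hg'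
  exact h5

/-- If `K` has more than continuum many elements, every `R ⊆ SL₂(K)` containing an element other
than the identity is a set of topological recurrence. -/
theorem isTopologicallyRecurrent_SL2 (h2 : (2 : K) ≠ 0)
    (hK : ∀ Φ : K → Set (ℕ × ℕ), ¬ Function.Injective Φ) (R : Set SL(2, K))
    (hR : ∃ g ∈ R, g ≠ 1) : IsTopologicallyRecurrent.{u, v} SL(2, K) R := by
  intro X _ _ _ _ _ U _ hUne
  obtain ⟨g, hg, hg1⟩ := hR
  obtain ⟨x, hx⟩ := hUne
  refine ⟨g, hg, hg1, x, hx, ?_⟩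
  show g • x ∈ U
  rw [smul_eq_self h2 hK X g x]
  exact hx

omit [Field K] in
theorem no_injection_of_continuum_lt (hK : Cardinal.continuum < Cardinal.mk K)
    (Φ : K → Set (ℕ × ℕ)) : ¬ Function.Injective Φ := by
  intro h
  have h1 := Cardinal.lift_mk_le_lift_mk_of_injective h
  have h2 : Cardinal.mk (Set (ℕ × ℕ)) = Cardinal.continuum := by
    rw [Cardinal.mk_set]; simp
  rw [h2, Cardinal.lift_continuum, Cardinal.lift_uzero] at h1
  exact absurd hK (not_lt.mpr h1)

/-- There is a field of characteristic zero with more than continuum many elements. -/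
theorem exists_large_field :
    ∃ (K : Type) (_ : Field K), CharZero K ∧ Cardinal.continuum < Cardinal.mk K := by
  refine ⟨FractionRing (MvPolynomial (Set ℝ) ℚ), inferInstance, ?_, ?_⟩
  · exact charZero_of_injective_algebraMap
      (FaithfulSMul.algebraMap_injective ℚ (FractionRing (MvPolynomial (Set ℝ) ℚ)))
  · have h1 : Function.Injective (fun s : Set ℝ =>
        algebraMap (MvPolynomial (Set ℝ) ℚ) (FractionRing (MvPolynomial (Set ℝ) ℚ))
          (MvPolynomial.X s)) := by
      intro s t hst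
      exact MvPolynomial.X_injective
        (IsFractionRing.injective (MvPolynomial (Set ℝ) ℚ)
          (FractionRing (MvPolynomial (Set ℝ) ℚ)) hst)
    have h2 := Cardinal.mk_le_of_injective h1
    rw [Cardinal.mk_set, Cardinal.mk_real] at h2
    exact lt_of_lt_of_le (Cardinal.cantor _) h2

/-- A set of measurable recurrence contains an element other than the identity. -/
theorem exists_ne_one_of_isMeasurablyRecurrent {G : Type u} [Group G] (R : Set G)
    (hR : IsMeasurablyRecurrent.{u, v} G R) : ∃ g ∈ R, g ≠ 1 := by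
  let _ : MulAction G PUnit.{v + 1} :=
    { smul := fun _ x => x
      one_smul := fun _ => rfl
      mul_smul := fun _ _ _ => rfl }
  obtain ⟨g, hg, hg1, -⟩ := hR PUnit.{v + 1} (Measure.dirac PUnit.unit)
    (fun g => ⟨measurable_id, by
      have : (fun x : PUnit.{v + 1} => g • x) = id := rfl
      rw [this, Measure.map_id]⟩) univ MeasurableSet.univ (by simp)
  exact ⟨g, hg, hg1⟩

end TrivialActions

end Helper96.Recurrence
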